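import Pool.Agent.H19.OM.Stm2
import Pool.Agent.H23.OM.Crt

/-!
# Project OM: module CI (means of the test function and characteristic functions)
-/

set_option autoImplicit false

namespace Pool.Agent.H29.OM

open Finset hiding val
open Pool.Agent.H19.OM Pool.Agent.H23.OM

/-- `e^{i θ x}` -/
noncomputable def ex (θ x : ℝ) : ℂ := Complex.exp (((θ * x : ℝ) : ℂ) * Complex.I)

lemma ex_zero (θ : ℝ) : ex θ 0 = 1 := by simp [ex]

lemma ex_add (θ x y : ℝ) : ex θ (x + y) = ex θ x * ex θ y := by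
  unfold ex
  rw [← Complex.exp_add]
  congr 1
  push_cast
  ring

lemma ex_neg (θ x : ℝ) : ex θ (-x) = (starRingEnd ℂ) (ex θ x) := by
  unfold ex
  rw [← Complex.exp_conj]
  congr 1
  simp

lemma ex_re (θ x : ℝ) : (ex θ x).re = Real.cos (θ * x) := by
  unfold ex
  rw [Complex.exp_ofReal_mul_I_re]

lemma ex_stat (θ : ℝ) (m : ℕ) (f : ℕ → ℝ) :
    ex θ (stat 2 m 0 f) = ∏ i ∈ range (2 * m), (if i % 2 = 0 then ex θ (f i) else ex θ (-f i)) := by
  induction m with
  | zero => simp [stat, ex_zero]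
  | succ m ih =>
    have h1 : stat 2 (m + 1) 0 f = stat 2 m 0 f + (f (2 * m) + -f (2 * m + 1)) := by
      unfold stat
      rw [sum_range_succ]
      have h2 : m * 2 + 0 % 2 = 2 * m := by omega
      have h3 : m * 2 + (0 + 1) % 2 = 2 * m + 1 := by omega
      rw [h2, h3]
      ring
    rw [h1, ex_add, ex_add, ih, show 2 * (m + 1) = 2 * m + 1 + 1 by ring, prod_range_succ, prod_range_succ,
      if_pos (by omega), if_neg (by omega), mul_assoc]

lemma prod_pairs (m : ℕ) (A B : ℂ) :
    ∏ i ∈ range (2 * m), (if i % 2 = 0 then A else B) = (A * B) ^ m := by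
  induction m with
  | zero => simp
  | succ m ih =>
    rw [show 2 * (m + 1) = 2 * m + 1 + 1 by ring, prod_range_succ, prod_range_succ, ih,
      if_pos (by omega), if_neg (by omega), pow_succ, mul_assoc]

lemma crt_sumC {A B : ℕ} (hA : A ≠ 0) (hB : B ≠ 0) (h : Nat.Coprime A B) (g : ℕ → ℕ → ℂ) :
    ∑ n ∈ range (A * B), g (n % A) (n % B) = ∑ r ∈ range A, ∑ s ∈ range B, g r s := by
  rw [← sum_product']
  refine sum_nbij' (fun n => (n % A, n % B)) (fun q => (Nat.chineseRemainder h q.1 q.2 : ℕ))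
    ?_ ?_ ?_ ?_ ?_
  · intro n _
    exact mem_product.2 ⟨mem_range.2 (Nat.mod_lt _ (Nat.pos_of_ne_zero hA)),
      mem_range.2 (Nat.mod_lt _ (Nat.pos_of_ne_zero hB))⟩
  · intro q _
    exact mem_range.2 (Nat.chineseRemainder_lt_mul h _ _ hA hB)
  · intro n hn
    have h1 := Nat.chineseRemainder_modEq_unique h (a := n % A) (b := n % B) (z := n)
      (Nat.mod_modEq n A).symm (Nat.mod_modEq n B).symm
    exact (Nat.ModEq.eq_of_lt_of_lt h1 (mem_range.1 hn)
      (Nat.chineseRemainder_lt_mul h _ _ hA hB)).symm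
  · rintro ⟨r, s⟩ hq
    obtain ⟨hr, hs⟩ := mem_product.1 hq
    have h1 := (Nat.chineseRemainder h r s).2
    refine Prod.ext ?_ ?_
    · exact Eq.trans h1.1 (Nat.mod_eq_of_lt (mem_range.1 hr))
    · exact Eq.trans h1.2 (Nat.mod_eq_of_lt (mem_range.1 hs))
  · intro n _
    rfl

lemma mean_ex (L : ℕ → ℕ) (θ : ℝ) (S : Finset ℕ) (hS : ∀ p ∈ S, p.Prime) :
    (∑ n ∈ range (Mo L S), ex θ ((∑ p ∈ S, val p (L p) n : ℕ) : ℝ)) / (Mo L S : ℂ) =
      ∏ p ∈ S, psi p (L p) θ := by
  classical
  induction S using Finset.induction_on with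
  | empty => simp [Mo, ex_zero]
  | insert p S hp ih =>
    have ih' := ih (fun q hq => hS q (mem_insert_of_mem hq))
    have hpp := hS p (mem_insert_self p S)
    have hM : Mo L (insert p S) = p ^ L p * Mo L S := prod_insert hp
    have hA : p ^ L p ≠ 0 := pow_ne_zero _ hpp.ne_zero
    have hB : Mo L S ≠ 0 := prod_ne_zero_iff.2 fun q hq => pow_ne_zero _ (hS q (mem_insert_of_mem hq)).ne_zero
    have hco : Nat.Coprime (p ^ L p) (Mo L S) := by
      refine Nat.Coprime.prod_right fun q hq => Nat.Coprime.pow _ _ ?_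
      refine (Nat.coprime_primes hpp (hS q (mem_insert_of_mem hq))).2 ?_
      rintro rfl
      exact hp hq
    have hdS : ∀ q ∈ S, q ^ L q ∣ Mo L S := fun q hq => dvd_prod_of_mem (fun q => q ^ L q) hq
    rw [prod_insert hp, ← ih', hM]
    have h1 : ∑ n ∈ range (p ^ L p * Mo L S), ex θ ((∑ q ∈ insert p S, val q (L q) n : ℕ) : ℝ) =
        ∑ r ∈ range (p ^ L p), ∑ s ∈ range (Mo L S), ex θ (val p (L p) r) *
          ex θ ((∑ q ∈ S, val q (L q) s : ℕ) : ℝ) := by
      rw [← crt_sumC hA hB hco (fun r s => ex θ (val p (L p) r) * ex θ ((∑ q ∈ S, val q (L q) s : ℕ) : ℝ))]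
      refine sum_congr rfl fun n _ => ?_
      rw [sum_insert hp, ← ex_add]
      congr 1
      push_cast
      congr 1
      · rw [val_congr (dvd_refl (p ^ L p)) (Nat.mod_modEq n (p ^ L p)).symm]
      · refine sum_congr rfl fun q hq => ?_
        rw [val_congr (hdS q hq) (Nat.mod_modEq n (Mo L S)).symm]
    rw [h1]
    simp only [← mul_sum]
    rw [← sum_mul]
    unfold psi
    push_cast
    have hA' : ((p : ℂ) ^ L p) ≠ 0 := by exact_mod_cast hA
    have hB' : (Mo L S : ℂ) ≠ 0 := Nat.cast_ne_zero.2 hB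
    unfold ex
    push_cast
    rw [mul_div_mul_comm]

theorem t_CI : S_CI := by
  intro L S m θ hS
  constructor
  · unfold J charJ tst
    rw [Complex.div_natCast_re, Complex.re_sum]
    congr 1
    refine sum_congr rfl fun n _ => ?_
    have := ex_re θ (stat 2 m 0 (fun i => ((∑ p ∈ S, val p (L p) (n + i) : ℕ) : ℝ)))
    unfold ex at this
    rw [this]
    congr 2
    unfold stat
    refine sum_congr rfl fun j hj => ?_
    rw [mem_range] at hj
    have e1 : j * 2 + 0 % 2 < 2 * m := by omega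
    have e2 : j * 2 + (0 + 1) % 2 < 2 * m := by omega
    beta_reduce
    rw [dif_pos e1, dif_pos e2]
  · set Q := Mo L S with hQ
    set V : ℕ → ℕ := fun n => ∑ p ∈ S, val p (L p) n with hV
    set A : ℂ := ∑ n ∈ range Q, ex θ ((V n : ℕ) : ℝ) with hA
    have hQ0 : Q ≠ 0 := prod_ne_zero_iff.2 fun q hq => pow_ne_zero _ (hS q hq).ne_zero
    have h1 : (∑ n ∈ Fintype.piFinset (fun _ : Fin (2 * m) => range Q),
        tst m θ (fun i => V (n i))) = ‖A‖ ^ (2 * m) := by
      have h2 : ∀ n : Fin (2 * m) → ℕ, tst m θ (fun i => V (n i)) =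
          (∏ i : Fin (2 * m), (if (i : ℕ) % 2 = 0 then ex θ (V (n i)) else ex θ (-(V (n i) : ℝ)))).re := by
        intro n
        unfold tst
        rw [← ex_re, ex_stat, prod_range]
        congr 1
        refine prod_congr rfl fun i _ => ?_
        simp only [i.2, dif_pos, Fin.eta]
      rw [sum_congr rfl fun n _ => h2 n, ← Complex.re_sum,
        ← prod_univ_sum (fun _ => range Q) (fun (i : Fin (2 * m)) (n : ℕ) =>
          (if (i : ℕ) % 2 = 0 then ex θ (V n) else ex θ (-(V n : ℝ))))]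
      have h3 : ∀ i : Fin (2 * m), ∑ n ∈ range Q, (if (i : ℕ) % 2 = 0 then ex θ (V n) else ex θ (-(V n : ℝ))) =
          (fun i : ℕ => if i % 2 = 0 then A else (starRingEnd ℂ) A) i := by
        intro i
        simp only
        split_ifs with h
        · rfl
        · rw [hA, map_sum]
          exact sum_congr rfl fun n _ => ex_neg θ _
      rw [prod_congr rfl fun i _ => h3 i, ← prod_range (fun i : ℕ => if i % 2 = 0 then A else (starRingEnd ℂ) A),
        prod_pairs, Complex.mul_conj, Complex.normSq_eq_norm_sq, ← Complex.ofReal_pow, Complex.ofReal_re,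
        ← pow_mul]
    have h4 : I L S (tst m θ) = ‖A / (Q : ℂ)‖ ^ (2 * m) := by
      unfold I
      rw [← hQ]
      have : (∑ n ∈ Fintype.piFinset (fun _ : Fin (2 * m) => range Q),
          tst m θ (fun i => ∑ p ∈ S, val p (L p) (n i))) = ‖A‖ ^ (2 * m) := h1
      rw [this, norm_div, div_pow, Complex.norm_natCast]
    rw [h4, hA, hQ, mean_ex L θ S hS, norm_prod, prod_pow]

end Pool.Agent.H29.OM
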