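import Pool.Agent.H19.OM.Stm

/-!
# Project OM: counting in arithmetic progressions (tools for PL1)
-/

set_option autoImplicit false

namespace Pool.Agent.H29.OM

open Finset

/-- the indicator of `p ∣ n` -/
noncomputable def e (p n : ℕ) : ℝ := if p ∣ n then 1 else 0

lemma e_nonneg (p n : ℕ) : 0 ≤ e p n := by unfold e; split_ifs <;> norm_num

lemma e_le_one (p n : ℕ) : e p n ≤ 1 := by unfold e; split_ifs <;> norm_num

lemma cnt (q K v : ℕ) (hq : 0 < q) (P : ℕ → Prop) [DecidablePred P] (hP : ∀ i, P i ↔ i ≡ v [MOD q]) :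
    |(∑ i ∈ range K, (if P i then (1 : ℝ) else 0)) - (K : ℝ) / q| ≤ 1 := by
  classical
  have h1 : (∑ i ∈ range K, (if P i then (1 : ℝ) else 0)) = ((K.count (· ≡ v [MOD q]) : ℕ) : ℝ) := by
    rw [Nat.count_eq_card_filter_range, Finset.sum_boole]
    congr 2
    ext i
    simp only [mem_filter, hP i]
  rw [h1, Nat.count_modEq_card K hq v]
  have hq' : (0 : ℝ) < q := by exact_mod_cast hq
  have h2 : ((K / q : ℕ) : ℝ) ≤ (K : ℝ) / q := Nat.cast_div_le
  have h3 : (K : ℝ) / q < ((K / q : ℕ) : ℝ) + 1 := by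
    rw [div_lt_iff₀ hq']
    have := Nat.lt_div_mul_add (a := K) hq
    have h4 : K < (K / q + 1) * q := by
      rw [add_mul, one_mul]; exact this
    exact_mod_cast h4
  rw [abs_le]
  push_cast
  split_ifs <;> constructor <;> simp <;> linarith

lemma ex_modEq {D q : ℕ} (hq : 0 < q) (h : Nat.Coprime D q) (c : ℕ) :
    ∃ v, ∀ i, q ∣ c + D * i ↔ i ≡ v [MOD q] := by
  obtain ⟨v, hv⟩ : ∃ v, q ∣ c + D * v := by
    obtain ⟨v, -, hv⟩ := Nat.exists_mul_mod_eq_of_coprime (q - c % q) h hq.ne'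
    refine ⟨v, ?_⟩
    have h1 : D * v ≡ q - c % q [MOD q] := hv
    have h2 : c ≡ c % q [MOD q] := (Nat.mod_modEq c q).symm
    have h3 : c + D * v ≡ c % q + (q - c % q) [MOD q] := h2.add h1
    rw [Nat.add_sub_cancel' (Nat.mod_lt c hq).le] at h3
    exact (Nat.modEq_zero_iff_dvd).1 (h3.trans (by simp [Nat.ModEq]))
  refine ⟨v, fun i => ?_⟩
  have h0 : c + D * v ≡ 0 [MOD q] := (Nat.modEq_zero_iff_dvd).2 hv
  rw [← Nat.modEq_zero_iff_dvd]
  constructor
  · intro hi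
    have h1 : c + D * i ≡ c + D * v [MOD q] := hi.trans h0.symm
    have h2 : D * i ≡ D * v [MOD q] := Nat.ModEq.add_left_cancel' c h1
    exact Nat.ModEq.cancel_left_of_coprime (by rwa [Nat.coprime_comm] at h) h2
  · intro hi
    exact ((hi.mul_left D).add_left c).trans h0

lemma n1 {p D : ℕ} (hp : 0 < p) (h : Nat.Coprime D p) (c K : ℕ) :
    |(∑ i ∈ range K, e p (c + D * i)) - (K : ℝ) / p| ≤ 1 := by
  obtain ⟨v, hv⟩ := ex_modEq hp h c
  exact cnt p K v hp (fun i => p ∣ c + D * i) hv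

lemma n2 {p q D : ℕ} (hp : 0 < p) (hq : 0 < q) (hpq : Nat.Coprime p q) (h : Nat.Coprime D p)
    (h' : Nat.Coprime D q) (c c' K : ℕ) :
    |(∑ i ∈ range K, e p (c + D * i) * e q (c' + D * i)) - (K : ℝ) / (p * q)| ≤ 1 := by
  obtain ⟨v, hv⟩ := ex_modEq hp h c
  obtain ⟨w, hw⟩ := ex_modEq hq h' c'
  obtain ⟨x, hx1, hx2⟩ := Nat.chineseRemainder hpq v w
  have hP : ∀ i, (p ∣ c + D * i ∧ q ∣ c' + D * i) ↔ i ≡ x [MOD p * q] := by
    intro i
    rw [hv i, hw i, ← Nat.modEq_and_modEq_iff_modEq_mul hpq]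
    constructor
    · rintro ⟨h1, h2⟩
      exact ⟨h1.trans hx1.symm, h2.trans hx2.symm⟩
    · rintro ⟨h1, h2⟩
      exact ⟨h1.trans hx1, h2.trans hx2⟩
  have := cnt (p * q) K x (Nat.mul_pos hp hq) (fun i => p ∣ c + D * i ∧ q ∣ c' + D * i) hP
  rw [Nat.cast_mul] at this
  convert this using 4
  rename_i i _
  unfold e
  by_cases h1 : p ∣ c + D * i <;> by_cases h2 : q ∣ c' + D * i <;> simp [h1, h2]

/-- the deviation of the number of `j < m` with `p ∣ c + D (i + j)` from `m / p` -/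
noncomputable def Y (D c m p i : ℕ) : ℝ := ∑ j ∈ range m, (e p (c + D * (i + j)) - 1 / (p : ℝ))

lemma Y_eq (D c m p i : ℕ) : Y D c m p i = (∑ j ∈ range m, e p (c + D * i + D * j)) - (m : ℝ) / p := by
  unfold Y
  rw [sum_sub_distrib]
  simp only [mul_add, ← add_assoc, sum_const, card_range, nsmul_eq_mul, mul_one_div]

lemma Y_abs {D p : ℕ} (hp : 0 < p) (h : Nat.Coprime D p) (c m i : ℕ) : |Y D c m p i| ≤ 1 := by
  rw [Y_eq]
  exact n1 hp h _ m

lemma off {p q D : ℕ} (hp : 0 < p) (hq : 0 < q) (hpq : Nat.Coprime p q) (h : Nat.Coprime D p)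
    (h' : Nat.Coprime D q) (c m K : ℕ) :
    ∑ i ∈ range K, Y D c m p i * Y D c m q i ≤ 3 * (m : ℝ) ^ 2 := by
  have hp1 : (1 : ℝ) ≤ p := by exact_mod_cast hp
  have hq1 : (1 : ℝ) ≤ q := by exact_mod_cast hq
  have hpi : (1 : ℝ) / p ≤ 1 := by rw [div_le_one (by linarith)]; exact hp1
  have hqi : (1 : ℝ) / q ≤ 1 := by rw [div_le_one (by linarith)]; exact hq1
  have hpi0 : (0 : ℝ) ≤ 1 / p := by positivity
  have hqi0 : (0 : ℝ) ≤ 1 / q := by positivity
  have key : ∀ j j' : ℕ, ∑ i ∈ range K, (e p (c + D * (i + j)) - 1 / (p : ℝ)) *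
      (e q (c + D * (i + j')) - 1 / (q : ℝ)) ≤ 3 := by
    intro j j'
    have e1 : ∀ i, c + D * (i + j) = (c + D * j) + D * i := fun i => by ring
    have e2 : ∀ i, c + D * (i + j') = (c + D * j') + D * i := fun i => by ring
    have a1 := n1 hp h (c + D * j) K
    have a2 := n1 hq h' (c + D * j') K
    have a3 := n2 hp hq hpq h h' (c + D * j) (c + D * j') K
    have e3 : ∑ i ∈ range K, (e p (c + D * (i + j)) - 1 / (p : ℝ)) *
        (e q (c + D * (i + j')) - 1 / (q : ℝ)) =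
        ((∑ i ∈ range K, e p (c + D * j + D * i) * e q (c + D * j' + D * i)) - (K : ℝ) / (p * q))
        - (1 / (q : ℝ)) * ((∑ i ∈ range K, e p (c + D * j + D * i)) - (K : ℝ) / p)
        - (1 / (p : ℝ)) * ((∑ i ∈ range K, e q (c + D * j' + D * i)) - (K : ℝ) / q) := by
      have e4 : ∀ i ∈ range K, (e p (c + D * (i + j)) - 1 / (p : ℝ)) *
          (e q (c + D * (i + j')) - 1 / (q : ℝ)) =
          e p (c + D * j + D * i) * e q (c + D * j' + D * i) - (1 / (q : ℝ)) * e p (c + D * j + D * i)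
          - (1 / (p : ℝ)) * e q (c + D * j' + D * i) + 1 / (p : ℝ) * (1 / (q : ℝ)) := by
        intro i _
        rw [e1 i, e2 i]; ring
      rw [sum_congr rfl e4, sum_add_distrib, sum_sub_distrib, sum_sub_distrib, ← mul_sum, ← mul_sum]
      simp only [sum_const, card_range, nsmul_eq_mul]
      field_simp
      ring
    rw [e3]
    rw [abs_le] at a1 a2 a3
    nlinarith [mul_le_mul_of_nonneg_left a1.1 hqi0, mul_le_mul_of_nonneg_left a2.1 hpi0]
  unfold Y
  have : ∀ i ∈ range K, (∑ j ∈ range m, (e p (c + D * (i + j)) - 1 / (p : ℝ))) *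
      (∑ j ∈ range m, (e q (c + D * (i + j)) - 1 / (q : ℝ))) =
      ∑ j ∈ range m, ∑ j' ∈ range m, (e p (c + D * (i + j)) - 1 / (p : ℝ)) *
      (e q (c + D * (i + j')) - 1 / (q : ℝ)) := fun i _ => by rw [sum_mul_sum]
  rw [sum_congr rfl this, sum_comm]
  calc _ = ∑ j ∈ range m, ∑ j' ∈ range m, ∑ i ∈ range K, (e p (c + D * (i + j)) - 1 / (p : ℝ)) *
      (e q (c + D * (i + j')) - 1 / (q : ℝ)) := sum_congr rfl fun j _ => by rw [sum_comm]
    _ ≤ ∑ j ∈ range m, ∑ j' ∈ range m, (3 : ℝ) := sum_le_sum fun j _ => sum_le_sum fun j' _ => key j j'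
    _ = 3 * (m : ℝ) ^ 2 := by simp; ring

lemma diag {p D : ℕ} (hp : 0 < p) (h : Nat.Coprime D p) (c m K : ℕ) :
    ∑ i ∈ range K, Y D c m p i * Y D c m p i ≤ 2 * m * K * (1 / (p : ℝ)) + m := by
  have h1 : ∀ i ∈ range K, Y D c m p i * Y D c m p i ≤
      (∑ j ∈ range m, e p (c + D * (i + j))) + (m : ℝ) * (1 / p) := by
    intro i _
    have a := Y_abs hp h c m i
    have b : |Y D c m p i| ≤ (∑ j ∈ range m, e p (c + D * (i + j))) + (m : ℝ) * (1 / p) := by
      have b1 : 0 ≤ ∑ j ∈ range m, e p (c + D * (i + j)) := sum_nonneg fun _ _ => e_nonneg _ _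
      have b2 : (0 : ℝ) ≤ (m : ℝ) * (1 / p) := by positivity
      have b3 : Y D c m p i = (∑ j ∈ range m, e p (c + D * (i + j))) - (m : ℝ) * (1 / p) := by
        unfold Y
        rw [sum_sub_distrib]
        simp only [sum_const, card_range, nsmul_eq_mul]
      rw [b3, abs_le]
      constructor <;> linarith
    calc Y D c m p i * Y D c m p i ≤ |Y D c m p i| * |Y D c m p i| := by
          rw [← abs_mul]; exact le_abs_self _
      _ ≤ 1 * |Y D c m p i| := mul_le_mul_of_nonneg_right a (abs_nonneg _)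
      _ ≤ _ := by rw [one_mul]; exact b
  refine (sum_le_sum h1).trans ?_
  rw [sum_add_distrib, sum_comm]
  have h2 : ∀ j ∈ range m, ∑ i ∈ range K, e p (c + D * (i + j)) ≤ (K : ℝ) * (1 / p) + 1 := by
    intro j _
    have a1 := (abs_le.1 (n1 hp h (c + D * j) K)).2
    have e1 : ∀ i ∈ range K, e p (c + D * (i + j)) = e p ((c + D * j) + D * i) := fun i _ => by
      congr 1; ring
    rw [sum_congr rfl e1]
    have : (K : ℝ) / p = K * (1 / p) := by ring
    linarith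
  have h3 := sum_le_sum h2
  simp only [sum_const, card_range, nsmul_eq_mul] at h3 ⊢
  nlinarith

/-- odd primes up to `z` -/
def pz (z : ℕ) : Finset ℕ := (Icc 3 z).filter Nat.Prime

lemma card_pz (z : ℕ) : ((pz z).card : ℝ) ≤ z := by
  have : (pz z).card ≤ (Icc 1 z).card := card_le_card fun p hp => by
    simp only [pz, mem_filter, mem_Icc] at hp ⊢
    omega
  rw [Nat.card_Icc] at this
  exact_mod_cast (by omega : (pz z).card ≤ z)

lemma lemA (D c m z K : ℕ) (hD : ∀ p ∈ pz z, Nat.Coprime D p) :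
    ∑ i ∈ range K, (∑ p ∈ pz z, Y D c m p i) ^ 2 ≤
      3 * (m : ℝ) ^ 2 * (z : ℝ) ^ 2 + 2 * m * K * (∑ p ∈ pz z, 1 / (p : ℝ)) + m * z := by
  have hpos : ∀ p ∈ pz z, 0 < p := fun p hp => by
    simp only [pz, mem_filter, mem_Icc] at hp; omega
  have hpr : ∀ p ∈ pz z, p.Prime := fun p hp => by
    simp only [pz, mem_filter, mem_Icc] at hp; exact hp.2
  have h1 : ∑ i ∈ range K, (∑ p ∈ pz z, Y D c m p i) ^ 2 =
      ∑ p ∈ pz z, ∑ q ∈ pz z, ∑ i ∈ range K, Y D c m p i * Y D c m q i := by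
    have : ∀ i ∈ range K, (∑ p ∈ pz z, Y D c m p i) ^ 2 =
        ∑ p ∈ pz z, ∑ q ∈ pz z, Y D c m p i * Y D c m q i := fun i _ => by rw [sq, sum_mul_sum]
    rw [sum_congr rfl this, sum_comm]
    exact sum_congr rfl fun p _ => by rw [sum_comm]
  rw [h1]
  have h2 : ∀ p ∈ pz z, ∀ q ∈ pz z, ∑ i ∈ range K, Y D c m p i * Y D c m q i ≤
      3 * (m : ℝ) ^ 2 + (if p = q then (2 * m * K * (1 / (p : ℝ)) + m) else 0) := by
    intro p hp q hq
    by_cases hpq : p = q
    · subst hpq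
      rw [if_pos rfl]
      have := diag (hpos p hp) (hD p hp) c m K
      have : (0 : ℝ) ≤ 3 * (m : ℝ) ^ 2 := by positivity
      linarith
    · rw [if_neg hpq, add_zero]
      exact off (hpos p hp) (hpos q hq) ((Nat.coprime_primes (hpr p hp) (hpr q hq)).2 hpq)
        (hD p hp) (hD q hq) c m K
  refine (sum_le_sum fun p hp => sum_le_sum fun q hq => h2 p hp q hq).trans ?_
  have h3 : ∀ p ∈ pz z, ∑ q ∈ pz z, (3 * (m : ℝ) ^ 2 + (if p = q then (2 * m * K * (1 / (p : ℝ)) + m) else 0)) =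
      (pz z).card * (3 * (m : ℝ) ^ 2) + (2 * m * K * (1 / (p : ℝ)) + m) := by
    intro p hp
    rw [sum_add_distrib, sum_const, nsmul_eq_mul, sum_ite_eq, if_pos hp]
  rw [sum_congr rfl h3, sum_add_distrib, sum_add_distrib, sum_const, sum_const, nsmul_eq_mul, nsmul_eq_mul,
    ← mul_sum]
  have c1 := card_pz z
  have c0 : (0 : ℝ) ≤ (pz z).card := by positivity
  have c2 : ((pz z).card : ℝ) * (pz z).card ≤ (z : ℝ) ^ 2 := by nlinarith
  have c3 : ((pz z).card : ℝ) * m ≤ m * z := by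
    rw [mul_comm]; exact mul_le_mul_of_nonneg_left c1 (by positivity)
  have c4 : ((pz z).card : ℝ) * ((pz z).card * (3 * (m : ℝ) ^ 2)) ≤ 3 * (m : ℝ) ^ 2 * (z : ℝ) ^ 2 := by
    have : (0 : ℝ) ≤ 3 * (m : ℝ) ^ 2 := by positivity
    nlinarith
  linarith

end Pool.Agent.H29.OM
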