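import Pool.Agent.H19.OM.Stm3

/-!
# Project OM: module K1 (truncated Moebius inversion over the subsets of a finite set)
-/

set_option autoImplicit false

namespace Pool.Agent.H29.OM

open Finset hiding val
open Pool.Agent.H19.OM

section

variable {α : Type} [DecidableEq α]

/-- the Moebius inverse -/
def mb (F : Finset α → ℝ) (E : Finset α) : ℝ := ∑ T ∈ E.powerset, (-1) ^ (E.card + T.card) * F T

lemma mb_insert (F : Finset α → ℝ) (E : Finset α) (x : α) (hx : x ∉ E) :
    mb F (insert x E) = -mb F E + mb (fun T => F (insert x T)) E := by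
  unfold mb
  rw [sum_powerset_insert hx, card_insert_of_notMem hx, ← sum_neg_distrib]
  congr 1
  · refine sum_congr rfl fun T _ => ?_
    rw [show E.card + 1 + T.card = (E.card + T.card) + 1 by ring, pow_succ]
    ring
  · refine sum_congr rfl fun T hT => ?_
    have hxT : x ∉ T := fun h => hx (mem_powerset.1 hT h)
    rw [card_insert_of_notMem hxT, show E.card + 1 + (T.card + 1) = (E.card + T.card) + 2 by ring, pow_add]
    norm_num

lemma mb_sum (E : Finset α) : ∀ F : Finset α → ℝ, ∑ T ∈ E.powerset, mb F T = F E := by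
  induction E using Finset.induction_on with
  | empty => intro F; simp [mb]
  | insert x E hx ih =>
    intro F
    rw [sum_powerset_insert hx, ih F]
    have h1 : ∀ T ∈ E.powerset, mb F (insert x T) = -mb F T + mb (fun T => F (insert x T)) T := by
      intro T hT
      exact mb_insert F T x fun h => hx (mem_powerset.1 hT h)
    rw [sum_congr rfl h1, sum_add_distrib, sum_neg_distrib, ih F, ih fun T => F (insert x T)]
    ring

omit [DecidableEq α] in
lemma mb_abs (F : Finset α → ℝ) (hF : ∀ E, |F E| ≤ 1) (E : Finset α) : |mb F E| ≤ 2 ^ E.card := by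
  unfold mb
  refine (abs_sum_le_sum_abs _ _).trans ?_
  have h1 : ∀ T ∈ E.powerset, |(-1 : ℝ) ^ (E.card + T.card) * F T| ≤ 1 := by
    intro T _
    rw [abs_mul, abs_pow, abs_neg, abs_one, one_pow, one_mul]
    exact hF T
  refine (sum_le_sum h1).trans ?_
  rw [sum_const, card_powerset, nsmul_eq_mul, mul_one]
  push_cast
  exact le_rfl

lemma small_sum (E : Finset α) (R : ℕ) (hR : R ≤ E.card) :
    ∑ T ∈ E.powerset with T.card ≤ R, (2 : ℝ) ^ T.card ≤ 3 ^ R * (E.card.choose R : ℝ) := by
  rw [sum_filter]
  have h0 := sum_powerset_apply_card (x := E) (fun j => if j ≤ R then (2 : ℝ) ^ j else 0)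
  rw [h0]
  have h1 : ∑ j ∈ range (E.card + 1), E.card.choose j • (if j ≤ R then (2 : ℝ) ^ j else 0) =
      ∑ j ∈ range (R + 1), (E.card.choose j : ℝ) * 2 ^ j := by
    rw [← sum_subset (s₁ := range (R + 1)) (range_mono (by omega))]
    · refine sum_congr rfl fun j hj => ?_
      rw [mem_range] at hj
      rw [if_pos (by omega), nsmul_eq_mul]
    · intro j _ hj
      rw [mem_range] at hj
      rw [if_neg (by omega), smul_zero]
  rw [h1]
  have h2 : ∀ j ∈ range (R + 1), (E.card.choose j : ℝ) * 2 ^ j ≤
      (E.card.choose R : ℝ) * (2 ^ j * 1 ^ (R - j) * (R.choose j : ℝ)) := by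
    intro j hj
    rw [mem_range] at hj
    have h3 : E.card.choose R * R.choose j = E.card.choose j * (E.card - j).choose (R - j) :=
      Nat.choose_mul (by omega : j ≤ R)
    have h4 : E.card.choose j ≤ E.card.choose R * R.choose j := by
      rw [h3]
      exact Nat.le_mul_of_pos_right _ (Nat.choose_pos (by omega))
    have h5 : (E.card.choose j : ℝ) ≤ (E.card.choose R : ℝ) * (R.choose j : ℝ) := by exact_mod_cast h4
    have h6 : (0 : ℝ) ≤ 2 ^ j := by positivity
    calc (E.card.choose j : ℝ) * 2 ^ j ≤ ((E.card.choose R : ℝ) * (R.choose j : ℝ)) * 2 ^ j :=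
          mul_le_mul_of_nonneg_right h5 h6
      _ = _ := by rw [one_pow]; ring
  refine (sum_le_sum h2).trans ?_
  rw [← mul_sum, ← add_pow, mul_comm]
  norm_num

lemma trunc (F : Finset α → ℝ) (R : ℕ) (hF : ∀ E, |F E| ≤ 1) (E : Finset α) :
    |F E - ∑ T ∈ E.powerset with T.card ≤ R, mb F T| ≤
      if E.card ≤ R then 0 else 2 * 3 ^ R * (E.card.choose R : ℝ) := by
  split_ifs with h
  · have h1 : E.powerset.filter (fun T => T.card ≤ R) = E.powerset := by
      rw [filter_true_of_mem]
      intro T hT
      exact (card_le_card (mem_powerset.1 hT)).trans h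
    rw [h1, mb_sum, sub_self, abs_zero]
  · push Not at h
    have h1 : |∑ T ∈ E.powerset with T.card ≤ R, mb F T| ≤ 3 ^ R * (E.card.choose R : ℝ) := by
      refine (abs_sum_le_sum_abs _ _).trans ((sum_le_sum fun T _ => mb_abs F hF T).trans ?_)
      exact small_sum E R h.le
    have h2 : (1 : ℝ) ≤ 3 ^ R * (E.card.choose R : ℝ) := by
      have h3 : 1 ≤ 3 ^ R * E.card.choose R := Nat.mul_pos (by positivity) (Nat.choose_pos h.le)
      exact_mod_cast h3
    have h3 := abs_sub (F E) (∑ T ∈ E.powerset with T.card ≤ R, mb F T)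
    have h4 := hF E
    linarith

end

theorem t_K1 : S_K1 := by
  intro F R hF
  refine ⟨mb F, mb_abs F hF, fun E => trunc F R hF E⟩

end Pool.Agent.H29.OM
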