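import Pool.Agent.H19.OM.Stm3

/-!
# Project OM: module K4 (the truncated expansion), from K1 and K2
-/

set_option autoImplicit false

namespace Pool.Agent.H29.OM

open Finset hiding val
open Pool.Agent.H19.OM

/-- the index set of the triples `(i, p, a)` -/
def UU (S : Finset ℕ) (Lf : ℕ → ℕ) (k : ℕ) : Finset (ℕ × ℕ × ℕ) :=
  (range k ×ˢ (S ×ˢ range (∑ p ∈ S, Lf p + 1))).filter (fun x => 1 ≤ x.2.2 ∧ x.2.2 ≤ Lf x.2.1)

/-- the triples with `p ^ a ∣ n + i` -/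
def EE (S : Finset ℕ) (Lf : ℕ → ℕ) (k n : ℕ) : Finset (ℕ × ℕ × ℕ) :=
  (UU S Lf k).filter (fun x => x.2.1 ^ x.2.2 ∣ n + x.1)

lemma sum_UU (S : Finset ℕ) (Lf : ℕ → ℕ) (k : ℕ) (g : ℕ × ℕ × ℕ → ℕ) :
    ∑ x ∈ UU S Lf k, g x = ∑ i ∈ range k, ∑ p ∈ S, ∑ a ∈ Icc 1 (Lf p), g (i, p, a) := by
  unfold UU
  rw [sum_filter, sum_product]
  refine sum_congr rfl fun i _ => ?_
  rw [sum_product]
  refine sum_congr rfl fun p hp => ?_
  rw [← sum_filter]
  refine sum_congr ?_ fun _ _ => rfl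
  ext a
  have : Lf p ≤ ∑ p ∈ S, Lf p := single_le_sum (f := Lf) (fun _ _ => Nat.zero_le _) hp
  simp only [mem_filter, mem_range, mem_Icc]
  omega

lemma card_UU (S : Finset ℕ) (Lf : ℕ → ℕ) (k : ℕ) : (UU S Lf k).card = k * ∑ p ∈ S, Lf p := by
  rw [card_eq_sum_ones, sum_UU]
  simp

lemma mem_UU {S : Finset ℕ} {Lf : ℕ → ℕ} {k : ℕ} {x : ℕ × ℕ × ℕ} (h : x ∈ UU S Lf k) :
    x.2.1 ∈ S ∧ x.2.2 ≤ Lf x.2.1 := by
  simp only [UU, mem_filter, mem_product] at h
  exact ⟨h.1.2.1, h.2.2⟩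

lemma card_EE_eq (S : Finset ℕ) (Lf : ℕ → ℕ) (k n : ℕ) (i : Fin k) :
    ((EE S Lf k n).filter (fun x => x.1 = (i : ℕ))).card = ∑ p ∈ S, val p (Lf p) (n + i) := by
  unfold EE
  rw [filter_filter, card_filter, sum_UU]
  rw [sum_eq_single (i : ℕ)]
  · refine sum_congr rfl fun p _ => ?_
    unfold val
    rw [card_filter]
    refine sum_congr rfl fun a _ => ?_
    simp
  · intro j _ hj
    simp [hj]
  · intro h
    exact absurd (mem_range.2 i.2) h

lemma card_EE (S : Finset ℕ) (Lf : ℕ → ℕ) (k n : ℕ) :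
    (EE S Lf k n).card = ∑ i : Fin k, ∑ p ∈ S, val p (Lf p) (n + i) := by
  unfold EE
  rw [card_filter, sum_UU, sum_range]
  refine sum_congr rfl fun i _ => sum_congr rfl fun p _ => ?_
  unfold val
  rw [card_filter]

lemma swap (S : Finset ℕ) (Lf : ℕ → ℕ) (k : ℕ) (A : Finset ℕ) (w : Finset (ℕ × ℕ × ℕ) → ℝ)
    (P : Finset (ℕ × ℕ × ℕ) → Prop) [DecidablePred P] :
    ∑ n ∈ A, ∑ T ∈ (EE S Lf k n).powerset with P T, w T =
      ∑ T ∈ (UU S Lf k).powerset with P T, w T * ((A.filter (fun n => ∀ x ∈ T, x.2.1 ^ x.2.2 ∣ n + x.1)).card : ℝ) := by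
  have h1 : ∀ n ∈ A, ∑ T ∈ (EE S Lf k n).powerset with P T, w T =
      ∑ T ∈ (UU S Lf k).powerset with P T, (if (∀ x ∈ T, x.2.1 ^ x.2.2 ∣ n + x.1) then w T else 0) := by
    intro n _
    rw [← sum_filter]
    refine sum_congr ?_ fun _ _ => rfl
    ext T
    simp only [mem_filter, mem_powerset, EE, subset_iff]
    constructor
    · rintro ⟨h1, h2⟩
      exact ⟨⟨fun x hx => (h1 hx).1, h2⟩, fun x hx => (h1 hx).2⟩
    · rintro ⟨⟨h1, h2⟩, h3⟩
      exact ⟨fun x hx => ⟨h1 hx, h3 x hx⟩, h2⟩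
  rw [sum_congr rfl h1, sum_comm]
  refine sum_congr rfl fun T _ => ?_
  rw [← sum_filter, sum_const, nsmul_eq_mul, mul_comm]

lemma geo (U : Finset (ℕ × ℕ × ℕ)) (R W : ℕ) (hW : U.card ≤ W) (z : ℝ) (hz : 0 ≤ z) :
    ∑ T ∈ U.powerset with T.card ≤ R, z ^ T.card ≤ (1 + W * z) ^ R := by
  rw [sum_filter]
  have h0 := sum_powerset_apply_card (x := U) (fun j => if j ≤ R then z ^ j else 0)
  rw [h0]
  have h1 : ∑ j ∈ range (U.card + 1), U.card.choose j • (if j ≤ R then z ^ j else 0) ≤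
      ∑ j ∈ range (R + 1), (W * z) ^ j * 1 ^ (R - j) * (R.choose j : ℝ) := by
    have h2 : ∀ j ∈ range (U.card + 1), U.card.choose j • (if j ≤ R then z ^ j else 0) ≤
        (if j ≤ R then (W * z) ^ j * 1 ^ (R - j) * (R.choose j : ℝ) else 0) := by
      intro j _
      split_ifs with h
      · rw [nsmul_eq_mul, one_pow, mul_one, mul_pow]
        have h3 : (U.card.choose j : ℝ) ≤ (W : ℝ) ^ j := by
          have : U.card.choose j ≤ W ^ j := (Nat.choose_le_pow _ _).trans (Nat.pow_le_pow_left hW j)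
          exact_mod_cast this
        have h4 : (1 : ℝ) ≤ R.choose j := by exact_mod_cast Nat.choose_pos h
        have h5 : (0 : ℝ) ≤ z ^ j := by positivity
        calc (U.card.choose j : ℝ) * z ^ j ≤ (W : ℝ) ^ j * z ^ j := mul_le_mul_of_nonneg_right h3 h5
          _ = (W : ℝ) ^ j * z ^ j * 1 := by ring
          _ ≤ (W : ℝ) ^ j * z ^ j * (R.choose j : ℝ) := mul_le_mul_of_nonneg_left h4 (by positivity)
      · simp
    refine (sum_le_sum h2).trans ?_
    rw [← sum_filter]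
    refine sum_le_sum_of_subset_of_nonneg ?_ fun j _ _ => by positivity
    intro j hj
    simp only [mem_filter, mem_range] at hj ⊢
    omega
  refine h1.trans ?_
  rw [← add_pow, add_comm]

lemma choose24 (t R : ℕ) : (3 : ℝ) ^ R * (t.choose R : ℝ) ≤ 25 ^ t / 8 ^ R := by
  rw [le_div_iff₀ (by positivity)]
  have h1 : (3 : ℝ) ^ R * (t.choose R : ℝ) * 8 ^ R = 24 ^ R * (t.choose R : ℝ) := by
    rw [show (24 : ℝ) = 3 * 8 by norm_num, mul_pow]; ring
  rw [h1]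
  by_cases h : R ≤ t
  · have h2 : (25 : ℝ) ^ t = ∑ m ∈ range (t + 1), 24 ^ m * 1 ^ (t - m) * (t.choose m : ℝ) := by
      rw [← add_pow]; norm_num
    rw [h2]
    have h3 := single_le_sum (f := fun m => (24 : ℝ) ^ m * 1 ^ (t - m) * (t.choose m : ℝ))
      (s := range (t + 1)) (fun m _ => by positivity) (mem_range.2 (by omega : R < t + 1))
    simpa using h3
  · rw [Nat.choose_eq_zero_of_lt (by omega)]
    simp

theorem t_K4 (hK1 : S_K1) (hK2 : S_K2) : S_K4 := by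
  intro S Lf k R W y N hN hy hS hW φ hφ
  set Q := Mo Lf S with hQ
  have hQ1 : 1 ≤ Q := Nat.pos_of_ne_zero
    (prod_ne_zero_iff.2 fun p hp => pow_ne_zero _ (hS p hp).1.ne_zero)
  have hN' : (0 : ℝ) < N := by exact_mod_cast hN
  have hQ' : (0 : ℝ) < Q := by exact_mod_cast hQ1
  have hy' : (1 : ℝ) ≤ y := by exact_mod_cast hy
  set U := UU S Lf k with hU
  have hUW : U.card ≤ W := by rw [hU, card_UU]; exact hW
  obtain ⟨c, hc, hcF⟩ := hK1 (fun T => φ (fun i : Fin k => (T.filter (fun x => x.1 = (i : ℕ))).card)) R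
    (fun T => hφ _)
  have hvec : ∀ n, φ (fun i : Fin k => ∑ p ∈ S, val p (Lf p) (n + i)) =
      φ (fun i : Fin k => ((EE S Lf k n).filter (fun x => x.1 = (i : ℕ))).card) := by
    intro n
    congr 1
    funext i
    exact (card_EE_eq S Lf k n i).symm
  -- the counting functions
  set a : Finset (ℕ × ℕ × ℕ) → ℝ := fun T =>
    (((Icc 1 N).filter (fun n => ∀ x ∈ T, x.2.1 ^ x.2.2 ∣ n + x.1)).card : ℝ) / N with ha
  set b : Finset (ℕ × ℕ × ℕ) → ℝ := fun T =>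
    (((range Q).filter (fun n => ∀ x ∈ T, x.2.1 ^ x.2.2 ∣ n + x.1)).card : ℝ) / Q with hb
  have hab : ∀ T ∈ U.powerset, |a T - b T| ≤ 2 * (y : ℝ) ^ T.card / N := by
    intro T hT
    rw [mem_powerset] at hT
    have h1 := hK2 T Q N hN hQ1 (fun x hx => by
      have h2 := mem_UU (hT hx)
      refine ⟨(hS _ h2.1).1.one_lt.le, ?_⟩
      exact (pow_dvd_pow _ h2.2).trans (dvd_prod_of_mem (fun p => p ^ Lf p) h2.1))
    refine h1.trans ?_
    have h3 : (∏ x ∈ T, (x.2.1 : ℝ) ^ x.2.2) ≤ (y : ℝ) ^ T.card := by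
      rw [← prod_const]
      refine prod_le_prod (fun x _ => by positivity) fun x hx => ?_
      have h2 := mem_UU (hT hx)
      have h4 : x.2.1 ^ x.2.2 ≤ y :=
        (Nat.pow_le_pow_right (hS _ h2.1).1.pos h2.2).trans (hS _ h2.1).2
      exact_mod_cast h4
    exact div_le_div_of_nonneg_right (by linarith) hN'.le
  -- the two means of the main part
  set C : ℕ → ℝ := fun n => ((EE S Lf k n).card.choose R : ℝ) with hC
  set G : ℕ → ℝ := fun n => ∑ T ∈ (EE S Lf k n).powerset with T.card ≤ R, c T with hG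
  have hFG : ∀ n, |φ (fun i : Fin k => ∑ p ∈ S, val p (Lf p) (n + i)) - G n| ≤ 2 * 3 ^ R * C n := by
    intro n
    rw [hvec n]
    refine (hcF (EE S Lf k n)).trans ?_
    split_ifs
    · positivity
    · exact le_rfl
  have hGN : (∑ n ∈ Icc 1 N, G n) / N = ∑ T ∈ U.powerset with T.card ≤ R, c T * a T := by
    rw [hG, swap S Lf k (Icc 1 N) c (fun T => T.card ≤ R), sum_div]
    refine sum_congr rfl fun T _ => ?_
    rw [ha]; ring
  have hGQ : (∑ n ∈ range Q, G n) / Q = ∑ T ∈ U.powerset with T.card ≤ R, c T * b T := by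
    rw [hG, swap S Lf k (range Q) c (fun T => T.card ≤ R), sum_div]
    refine sum_congr rfl fun T _ => ?_
    rw [hb]; ring
  have hCsum : ∀ n, C n = ∑ T ∈ (EE S Lf k n).powerset with T.card = R, (1 : ℝ) := by
    intro n
    rw [hC]
    simp only
    rw [← card_powersetCard, powersetCard_eq_filter, sum_const, nsmul_eq_mul, mul_one]
  have hCN : (∑ n ∈ Icc 1 N, C n) / N = ∑ T ∈ U.powerset with T.card = R, a T := by
    rw [sum_congr rfl fun n _ => hCsum n, swap S Lf k (Icc 1 N) (fun _ => 1) (fun T => T.card = R), sum_div]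
    refine sum_congr rfl fun T _ => ?_
    rw [ha]; ring
  have hCQ : (∑ n ∈ range Q, C n) / Q = ∑ T ∈ U.powerset with T.card = R, b T := by
    rw [sum_congr rfl fun n _ => hCsum n, swap S Lf k (range Q) (fun _ => 1) (fun T => T.card = R), sum_div]
    refine sum_congr rfl fun T _ => ?_
    rw [hb]; ring
  have m1 : |(∑ n ∈ Icc 1 N, G n) / N - (∑ n ∈ range Q, G n) / Q| ≤ 2 * (1 + 3 * (W : ℝ) * y) ^ R / N := by
    rw [hGN, hGQ, ← sum_sub_distrib]
    refine (abs_sum_le_sum_abs _ _).trans ?_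
    have h1 : ∀ T ∈ U.powerset.filter (fun T => T.card ≤ R), |c T * a T - c T * b T| ≤
        (2 / N) * (2 * (y : ℝ)) ^ T.card := by
      intro T hT
      rw [mem_filter] at hT
      rw [← mul_sub, abs_mul]
      calc |c T| * |a T - b T| ≤ 2 ^ T.card * (2 * (y : ℝ) ^ T.card / N) :=
            mul_le_mul (hc T) (hab T hT.1) (abs_nonneg _) (by positivity)
        _ = (2 / N) * (2 * (y : ℝ)) ^ T.card := by rw [mul_pow]; ring
    refine (sum_le_sum h1).trans ?_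
    rw [← mul_sum]
    have h2 := geo U R W hUW (2 * (y : ℝ)) (by positivity)
    have h3 : (1 + (W : ℝ) * (2 * y)) ^ R ≤ (1 + 3 * (W : ℝ) * y) ^ R := by
      refine pow_le_pow_left₀ (by positivity) ?_ R
      have : (0 : ℝ) ≤ (W : ℝ) * y := by positivity
      nlinarith
    calc (2 / (N : ℝ)) * _ ≤ (2 / (N : ℝ)) * (1 + 3 * (W : ℝ) * y) ^ R :=
          mul_le_mul_of_nonneg_left (h2.trans h3) (by positivity)
      _ = _ := by ring
  have m2 : 2 * 3 ^ R * ((∑ n ∈ Icc 1 N, C n) / N) ≤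
      2 * 3 ^ R * ((∑ n ∈ range Q, C n) / Q) + 4 * (1 + 3 * (W : ℝ) * y) ^ R / N := by
    rw [hCN, hCQ]
    have h1 : ∀ T ∈ U.powerset.filter (fun T => T.card = R), a T ≤ b T + 2 * (y : ℝ) ^ R / N := by
      intro T hT
      rw [mem_filter] at hT
      have := (abs_le.1 (hab T hT.1)).2
      rw [hT.2] at this
      linarith
    have h2 := sum_le_sum h1
    rw [sum_add_distrib, sum_const, nsmul_eq_mul] at h2
    rw [← powersetCard_eq_filter, card_powersetCard] at h2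
    have h3 : (U.card.choose R : ℝ) ≤ (W : ℝ) ^ R := by
      have : U.card.choose R ≤ W ^ R := (Nat.choose_le_pow _ _).trans (Nat.pow_le_pow_left hUW R)
      exact_mod_cast this
    have h4 : (3 * (W : ℝ) * y) ^ R ≤ (1 + 3 * (W : ℝ) * y) ^ R :=
      pow_le_pow_left₀ (by positivity) (by linarith) R
    have h5 : 2 * 3 ^ R * ((U.card.choose R : ℝ) * (2 * (y : ℝ) ^ R / N)) ≤
        4 * (1 + 3 * (W : ℝ) * y) ^ R / N := by
      calc 2 * 3 ^ R * ((U.card.choose R : ℝ) * (2 * (y : ℝ) ^ R / N))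
          ≤ 2 * 3 ^ R * ((W : ℝ) ^ R * (2 * (y : ℝ) ^ R / N)) := by gcongr
        _ = 4 * (3 * (W : ℝ) * y) ^ R / N := by rw [mul_pow, mul_pow]; ring
        _ ≤ 4 * (1 + 3 * (W : ℝ) * y) ^ R / N := by gcongr
    rw [← powersetCard_eq_filter]
    have h6 := mul_le_mul_of_nonneg_left h2 (by positivity : (0 : ℝ) ≤ 2 * 3 ^ R)
    rw [mul_add] at h6
    linarith
  have m3 : 3 ^ R * ((∑ n ∈ range Q, C n) / Q) ≤
      ((∑ n ∈ range Q, (25 : ℝ) ^ (∑ i : Fin k, ∑ p ∈ S, val p (Lf p) (n + i))) / Q) / 8 ^ R := by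
    rw [← mul_div_assoc, mul_sum, div_div, mul_comm (Q : ℝ), ← div_div]
    refine div_le_div_of_nonneg_right ?_ hQ'.le
    rw [sum_div]
    refine sum_le_sum fun n _ => ?_
    rw [← card_EE]
    exact choose24 _ R
  have e1 : |empc Lf S N φ - (∑ n ∈ Icc 1 N, G n) / N| ≤ 2 * 3 ^ R * ((∑ n ∈ Icc 1 N, C n) / N) := by
    unfold empc
    rw [← sub_div, ← sum_sub_distrib, abs_div, abs_of_pos hN', ← mul_div_assoc, mul_sum]
    refine div_le_div_of_nonneg_right ?_ hN'.le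
    exact (abs_sum_le_sum_abs _ _).trans (sum_le_sum fun n _ => hFG n)
  have e2 : |J Lf S φ - (∑ n ∈ range Q, G n) / Q| ≤ 2 * 3 ^ R * ((∑ n ∈ range Q, C n) / Q) := by
    unfold J
    rw [← hQ, ← sub_div, ← sum_sub_distrib, abs_div, abs_of_pos hQ', ← mul_div_assoc, mul_sum]
    refine div_le_div_of_nonneg_right ?_ hQ'.le
    exact (abs_sum_le_sum_abs _ _).trans (sum_le_sum fun n _ => hFG n)
  have t1 := abs_sub_le (empc Lf S N φ) ((∑ n ∈ Icc 1 N, G n) / N) (J Lf S φ)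
  have t2 := abs_sub_le ((∑ n ∈ Icc 1 N, G n) / N) ((∑ n ∈ range Q, G n) / Q) (J Lf S φ)
  rw [abs_sub_comm] at e2
  have f1 : 6 * (1 + 3 * (W : ℝ) * y) ^ R / N = 2 * (1 + 3 * (W : ℝ) * y) ^ R / N +
      4 * (1 + 3 * (W : ℝ) * y) ^ R / N := by ring
  have f2 : 4 * ((∑ n ∈ range Q, (25 : ℝ) ^ (∑ i : Fin k, ∑ p ∈ S, val p (Lf p) (n + i))) / Q) / 8 ^ R =
      4 * (((∑ n ∈ range Q, (25 : ℝ) ^ (∑ i : Fin k, ∑ p ∈ S, val p (Lf p) (n + i))) / Q) / 8 ^ R) := by ring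
  rw [f1, f2]
  linarith

end Pool.Agent.H29.OM
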