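import Pool.Agent.H19.OM.Stm3

/-!
# Project OM: module K6 (independent coordinates from one coordinate)
-/

set_option autoImplicit false

namespace Pool.Agent.H29.OM

open Finset hiding val
open Pool.Agent.H19.OM

lemma sum_cons {k : ℕ} (A : Finset ℕ) (f : (Fin (k + 1) → ℕ) → ℝ) :
    ∑ m ∈ Fintype.piFinset (fun _ : Fin (k + 1) => A), f m =
      ∑ a ∈ A, ∑ m ∈ Fintype.piFinset (fun _ : Fin k => A), f (Fin.cons a m) := by
  rw [← sum_product']
  refine sum_nbij' (fun m => (m 0, Fin.tail m)) (fun q => Fin.cons q.1 q.2) ?_ ?_ ?_ ?_ ?_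
  · intro m hm
    rw [Fintype.mem_piFinset] at hm
    exact mem_product.2 ⟨hm 0, Fintype.mem_piFinset.2 fun i => hm i.succ⟩
  · rintro ⟨a, m⟩ hq
    obtain ⟨ha, hm⟩ := mem_product.1 hq
    rw [Fintype.mem_piFinset] at hm ⊢
    intro i
    refine Fin.cases ?_ (fun j => ?_) i
    · exact ha
    · exact hm j
  · intro m _
    exact Fin.cons_self_tail m
  · rintro ⟨a, m⟩ _
    simp
  · intro m _
    simp only [Fin.cons_self_tail]

/-- the mean over `k` independent coordinates of a function of `f` -/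
noncomputable def mn (A : Finset ℕ) (f : ℕ → ℕ) (k : ℕ) (φ : (Fin k → ℕ) → ℝ) : ℝ :=
  (∑ m ∈ Fintype.piFinset (fun _ : Fin k => A), φ (fun i => f (m i))) / (A.card : ℝ) ^ k

lemma mn_succ (A : Finset ℕ) (f : ℕ → ℕ) (k : ℕ) (φ : (Fin (k + 1) → ℕ) → ℝ) :
    mn A f (k + 1) φ = (∑ a ∈ A, mn A f k (fun z => φ (Fin.cons (f a) z))) / A.card := by
  unfold mn
  rw [sum_cons, ← sum_div, div_div, ← pow_succ]
  congr 1
  refine sum_congr rfl fun a _ => sum_congr rfl fun m _ => ?_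
  congr 1
  funext i
  refine Fin.cases ?_ (fun j => ?_) i <;> simp

lemma mn_abs (A : Finset ℕ) (hA : 0 < A.card) (f : ℕ → ℕ) (k : ℕ) (φ : (Fin k → ℕ) → ℝ) (hφ : Bd φ) :
    |mn A f k φ| ≤ 1 := by
  unfold mn
  have hA' : (0 : ℝ) < A.card := by exact_mod_cast hA
  rw [abs_div, abs_of_pos (pow_pos hA' k), div_le_one (pow_pos hA' k)]
  refine (abs_sum_le_sum_abs _ _).trans ((sum_le_sum fun m _ => hφ _).trans ?_)
  rw [sum_const, nsmul_eq_mul, mul_one, Fintype.card_piFinset_const]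
  push_cast
  exact le_rfl

lemma hyb (A B : Finset ℕ) (hA : 0 < A.card) (hB : 0 < B.card) (f g : ℕ → ℕ) (ε : ℝ)
    (h : ∀ ψ : ℕ → ℝ, (∀ a, |ψ a| ≤ 1) → |(∑ a ∈ A, ψ (f a)) / A.card - (∑ b ∈ B, ψ (g b)) / B.card| ≤ ε) :
    ∀ (k : ℕ) (φ : (Fin k → ℕ) → ℝ), Bd φ → |mn A f k φ - mn B g k φ| ≤ k * ε := by
  have hA' : (0 : ℝ) < A.card := by exact_mod_cast hA
  intro k
  induction k with
  | zero =>
    intro φ _
    unfold mn
    simp only [pow_zero, div_one, Fintype.piFinset_of_isEmpty, univ_unique, sum_singleton]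
    rw [sub_eq_zero.2 (congrArg φ (Subsingleton.elim _ _)), abs_zero]
    simp
  | succ k ih =>
    intro φ hφ
    have h1 : |(∑ a ∈ A, mn A f k (fun z => φ (Fin.cons (f a) z))) / (A.card : ℝ) -
        (∑ a ∈ A, mn B g k (fun z => φ (Fin.cons (f a) z))) / A.card| ≤ k * ε := by
      rw [← sub_div, ← sum_sub_distrib, abs_div, abs_of_pos hA', div_le_iff₀ hA']
      refine (abs_sum_le_sum_abs _ _).trans ((sum_le_sum fun a _ => ih _ fun z => hφ _).trans ?_)
      rw [sum_const, nsmul_eq_mul, mul_comm]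
    have h2 := h (fun x => mn B g k (fun z => φ (Fin.cons x z))) (fun x => mn_abs B hB g k _ fun z => hφ _)
    rw [mn_succ, mn_succ]
    have h3 := abs_sub_le ((∑ a ∈ A, mn A f k (fun z => φ (Fin.cons (f a) z))) / (A.card : ℝ))
      ((∑ a ∈ A, mn B g k (fun z => φ (Fin.cons (f a) z))) / A.card)
      ((∑ a ∈ B, mn B g k (fun z => φ (Fin.cons (g a) z))) / B.card)
    push_cast
    linarith

theorem t_K6 : S_K6 := by
  intro y N L S ε hN hS h k φ hφ
  have hQ : 0 < Mo L S := Nat.pos_of_ne_zero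
    (prod_ne_zero_iff.2 fun p hp => pow_ne_zero _ (hS p hp).ne_zero)
  have key := hyb (Icc 1 N) (range (Mo L S)) (by rw [Nat.card_Icc]; omega) (by rw [card_range]; exact hQ)
    (fun n => Om y n) (fun n => ∑ p ∈ S, val p (L p) n) ε (fun ψ hψ => by
      have := h (fun z => ψ (z 0)) (fun z => hψ _)
      unfold emp J at this
      rw [Nat.card_Icc, card_range]
      simpa using this) k φ hφ
  unfold mn at key
  rw [Nat.card_Icc, card_range, Nat.add_sub_cancel] at key
  unfold prd I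
  exact key

end Pool.Agent.H29.OM
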