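import Pool.Agent.H19.OM.Stm

/-!
# Project OM: module MO (size of the modulus)
-/

set_option autoImplicit false

namespace Pool.Agent.H29.OM

open Finset hiding val
open Pool.Agent.H19.OM

theorem t_MO : S_MO := by
  intro y M L hM hMy
  have hdis : Disjoint (prs 0 M) (prs M y) := by
    rw [disjoint_left]
    intro p h1 h2
    simp only [prs, mem_filter, mem_Ioc] at h1 h2
    omega
  unfold Mo
  rw [prod_union hdis]
  refine Nat.mul_le_mul ?_ ?_
  · calc ∏ p ∈ prs 0 M, p ^ cap M L p ≤ ∏ p ∈ prs 0 M, M ^ L := by
          refine prod_le_prod' fun p hp => ?_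
          simp only [prs, mem_filter, mem_Ioc] at hp
          unfold cap
          rw [if_pos hp.1.2]
          exact Nat.pow_le_pow_left hp.1.2 L
      _ = (M ^ L) ^ (prs 0 M).card := by rw [prod_const]
      _ ≤ (M ^ L) ^ M := by
          refine Nat.pow_le_pow_right (Nat.pow_pos hM) ?_
          refine (card_le_card (filter_subset _ _)).trans ?_
          simp
      _ = M ^ (L * M) := by rw [pow_mul]
  · calc ∏ p ∈ prs M y, p ^ cap M L p = ∏ p ∈ prs M y, p := by
          refine prod_congr rfl fun p hp => ?_
          simp only [prs, mem_filter, mem_Ioc] at hp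
          unfold cap
          rw [if_neg (by omega), pow_one]
      _ ≤ primorial y := by
          unfold primorial
          refine prod_le_prod_of_subset_of_one_le' ?_ ?_
          · intro p hp
            simp only [prs, mem_filter, mem_Ioc, mem_range] at hp ⊢
            exact ⟨by omega, hp.2⟩
          · intro p hp _
            simp only [mem_filter] at hp
            exact hp.2.one_lt.le
      _ ≤ 4 ^ y := primorial_le_four_pow y

end Pool.Agent.H29.OM
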