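import Pool.Agent.H29.OM.Cnt

/-!
# Project OM: an upper bound for the sum of `1 / p` over the odd primes `p ≤ z`
-/

set_option autoImplicit false

namespace Pool.Agent.H29.OM

open Finset

lemma dy (k : ℕ) (hk : 1 ≤ k) :
    ∑ p ∈ (Ioc (2 ^ k) (2 ^ (k + 1))).filter Nat.Prime, 1 / (p : ℝ) ≤ 4 / k := by
  have hk' : (0 : ℝ) < k := by exact_mod_cast hk
  have hl2 : 0 < Real.log 2 := Real.log_pos (by norm_num)
  have h1 : ∀ p ∈ (Ioc (2 ^ k) (2 ^ (k + 1))).filter Nat.Prime,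
      1 / (p : ℝ) ≤ Real.log p * (1 / (k * Real.log 2 * 2 ^ k)) := by
    intro p hp
    simp only [mem_filter, mem_Ioc] at hp
    have hp0 : (2 : ℝ) ^ k ≤ p := by exact_mod_cast hp.1.1.le
    have hpp : (0 : ℝ) < (2 : ℝ) ^ k := by positivity
    have hlog : (k : ℝ) * Real.log 2 ≤ Real.log p := by
      rw [← Real.log_pow]
      exact Real.log_le_log hpp hp0
    have h2 : 1 / (p : ℝ) ≤ 1 / 2 ^ k := one_div_le_one_div_of_le hpp hp0
    have h3 : (1 : ℝ) / 2 ^ k = (k * Real.log 2) * (1 / (k * Real.log 2 * 2 ^ k)) := by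
      field_simp
    rw [h3] at h2
    refine h2.trans (mul_le_mul_of_nonneg_right hlog (by positivity))
  refine (sum_le_sum h1).trans ?_
  rw [← sum_mul]
  have h4 : ∑ p ∈ (Ioc (2 ^ k) (2 ^ (k + 1))).filter Nat.Prime, Real.log p ≤ Real.log 4 * 2 ^ (k + 1) := by
    have := Chebyshev.theta_le_log4_mul_x (x := ((2 ^ (k + 1) : ℕ) : ℝ)) (by positivity)
    rw [Chebyshev.theta_eq_sum_primesLE_log] at this
    push_cast at this
    refine le_trans ?_ this
    apply sum_le_sum_of_subset_of_nonneg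
    · intro p hp
      simp only [mem_filter, mem_Ioc] at hp
      rw [Nat.mem_primesLE]
      exact ⟨hp.1.2, hp.2⟩
    · intro p hp _
      exact Real.log_natCast_nonneg p
  have h5 : Real.log 4 = 2 * Real.log 2 := by
    rw [show (4 : ℝ) = 2 ^ 2 by norm_num, Real.log_pow]; norm_num
  calc _ ≤ (Real.log 4 * 2 ^ (k + 1)) * (1 / (k * Real.log 2 * 2 ^ k)) :=
        mul_le_mul_of_nonneg_right h4 (by positivity)
    _ = 4 / k := by rw [h5, pow_succ]; field_simp; ring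

lemma upto (K : ℕ) : ∑ p ∈ pz (2 ^ (K + 1)), 1 / (p : ℝ) ≤ 4 * (harmonic K : ℝ) := by
  induction K with
  | zero =>
    have : pz (2 ^ (0 + 1)) = ∅ := by
      unfold pz; simp
    rw [this]; simp
  | succ K ih =>
    have h1 : pz (2 ^ (K + 1 + 1)) ⊆ pz (2 ^ (K + 1)) ∪ (Ioc (2 ^ (K + 1)) (2 ^ (K + 1 + 1))).filter Nat.Prime := by
      intro p hp
      simp only [pz, mem_filter, mem_Icc, mem_union, mem_Ioc] at hp ⊢
      by_cases h : p ≤ 2 ^ (K + 1)
      · exact Or.inl ⟨⟨hp.1.1, h⟩, hp.2⟩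
      · exact Or.inr ⟨⟨by omega, hp.1.2⟩, hp.2⟩
    have h2 : ∑ p ∈ pz (2 ^ (K + 1 + 1)), 1 / (p : ℝ) ≤ ∑ p ∈ pz (2 ^ (K + 1)), 1 / (p : ℝ) +
        ∑ p ∈ (Ioc (2 ^ (K + 1)) (2 ^ (K + 1 + 1))).filter Nat.Prime, 1 / (p : ℝ) := by
      refine (sum_le_sum_of_subset_of_nonneg h1 fun p _ _ => by positivity).trans ?_
      have := sum_union_inter (s₁ := pz (2 ^ (K + 1)))
        (s₂ := (Ioc (2 ^ (K + 1)) (2 ^ (K + 1 + 1))).filter Nat.Prime) (f := fun p : ℕ => 1 / (p : ℝ))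
      have h0 : (0 : ℝ) ≤ ∑ p ∈ pz (2 ^ (K + 1)) ∩ (Ioc (2 ^ (K + 1)) (2 ^ (K + 1 + 1))).filter Nat.Prime,
        1 / (p : ℝ) := sum_nonneg fun p _ => by positivity
      linarith
    have h3 := dy (K + 1) (by omega)
    rw [harmonic_succ]
    push_cast at h3 ⊢
    have h4 : (4 : ℝ) * ((harmonic K : ℝ) + ((K : ℝ) + 1)⁻¹) = 4 * (harmonic K : ℝ) + 4 / ((K : ℝ) + 1) := by
      rw [mul_add, div_eq_mul_inv]
    rw [h4]
    linarith

/-- the sum of the reciprocals of the odd primes up to `z` -/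
lemma mer (z : ℕ) : ∑ p ∈ pz z, 1 / (p : ℝ) ≤ 8 * (1 + Real.log (Real.log (max (z : ℝ) 3))) := by
  have hll : 0 < Real.log (Real.log (max (z : ℝ) 3)) := by
    apply Real.log_pos
    have : Real.log 3 ≤ Real.log (max (z : ℝ) 3) := Real.log_le_log (by norm_num) (le_max_right _ _)
    have h3 : 1 < Real.log 3 := by
      rw [Real.lt_log_iff_exp_lt (by norm_num)]
      exact Real.exp_one_lt_d9.trans (by norm_num)
    linarith
  by_cases hz : z < 3
  · have : pz z = ∅ := by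
      unfold pz
      rw [Icc_eq_empty (by omega)]; simp
    rw [this, sum_empty]
    positivity
  push Not at hz
  have hz3 : (3 : ℝ) ≤ z := by exact_mod_cast hz
  rw [max_eq_left hz3] at hll ⊢
  set k := Nat.log 2 z with hk
  have hk1 : 1 ≤ k := Nat.log_pos (by norm_num) (by omega)
  have h1 : z < 2 ^ (k + 1) := Nat.lt_pow_succ_log_self (by norm_num) z
  have h2 : 2 ^ k ≤ z := Nat.pow_log_le_self 2 (by omega)
  have h3 : ∑ p ∈ pz z, 1 / (p : ℝ) ≤ ∑ p ∈ pz (2 ^ (k + 1)), 1 / (p : ℝ) := by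
    apply sum_le_sum_of_subset_of_nonneg
    · intro p hp
      simp only [pz, mem_filter, mem_Icc] at hp ⊢
      exact ⟨⟨hp.1.1, by omega⟩, hp.2⟩
    · intro p _ _; positivity
  have h4 := upto k
  have h5 : (harmonic k : ℝ) ≤ 1 + Real.log k := harmonic_le_one_add_log k
  have hk' : (0 : ℝ) < k := by exact_mod_cast hk1
  have hl2 : (0.6931471803 : ℝ) < Real.log 2 := Real.log_two_gt_d9
  have h6 : (k : ℝ) * Real.log 2 ≤ Real.log z := by
    rw [← Real.log_pow]
    exact Real.log_le_log (by positivity) (by exact_mod_cast h2)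
  have h7 : (k : ℝ) ≤ 2 * Real.log z := by nlinarith
  have hlz : 0 < Real.log z := Real.log_pos (by linarith)
  have h8 : Real.log k ≤ Real.log 2 + Real.log (Real.log z) := by
    rw [← Real.log_mul (by norm_num) hlz.ne']
    exact Real.log_le_log hk' h7
  have h9 : Real.log 2 < 0.6931471808 := Real.log_two_lt_d9
  linarith

end Pool.Agent.H29.OM
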