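import Pool.Agent.H29.OM.Mer

/-!
# Project OM: the choice of `p₀` and the tail of `∑ p ^ (-3/2)` (tools for UPT)
-/

set_option autoImplicit false

namespace Pool.Agent.H29.OM

open Finset hiding val
open Filter Asymptotics Pool.Agent.H19.OM

lemma sum_prs (n : ℕ) : ∑ p ∈ prs 0 n, 1 / (p : ℝ) ≤ 9 + 8 * Real.log (Real.log (max (n : ℝ) 3)) := by
  have h1 : prs 0 n ⊆ insert 2 (pz n) := by
    intro p hp
    simp only [prs, pz, mem_filter, mem_Ioc, mem_insert, mem_Icc] at hp ⊢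
    have := hp.2.two_le
    by_cases h : p = 2
    · exact Or.inl h
    · exact Or.inr ⟨⟨by omega, hp.1.2⟩, hp.2⟩
  have h2 : ∑ p ∈ prs 0 n, 1 / (p : ℝ) ≤ ∑ p ∈ insert 2 (pz n), 1 / (p : ℝ) :=
    sum_le_sum_of_subset_of_nonneg h1 fun p _ _ => by positivity
  have h3 : (2 : ℕ) ∉ pz n := by simp [pz]
  rw [sum_insert h3] at h2
  have h4 := mer n
  norm_num at h2 ⊢
  norm_num at h4
  linarith

theorem p0 (C K : ℝ) (hC : 0 ≤ C) (hK : 0 ≤ K) : ∃ p0 : ℕ, 3 ≤ p0 ∧ K / Real.sqrt p0 ≤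
    (1 / 4) * Real.exp (-(C * (6 * (∑ p ∈ prs 0 p0, 1 / (p : ℝ)) + 4 * (∑ p ∈ prs 0 p0, 1 / (p : ℝ)) ^ 2))) := by
  have o1 : (fun x : ℝ => Real.log x) =o[atTop] (id : ℝ → ℝ) := Real.isLittleO_log_id_atTop
  have o2 : (fun x : ℝ => Real.log x ^ 2) =o[atTop] (id : ℝ → ℝ) := Real.isLittleO_pow_log_id_atTop
  have o3 : (fun _ : ℝ => Real.log (4 * K + 1) + C * (6 * 9 + 4 * 81)) =o[atTop] (id : ℝ → ℝ) :=
    isLittleO_const_id_atTop _
  have o4 : (fun x : ℝ => Real.log (4 * K + 1) + C * (6 * (9 + 8 * Real.log x) + 4 * (9 + 8 * Real.log x) ^ 2))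
      =o[atTop] (id : ℝ → ℝ) := by
    have h := (o3.add (o1.const_mul_left (C * (6 * 8 + 4 * 144)))).add (o2.const_mul_left (C * (4 * 64)))
    refine h.congr_left fun x => ?_
    ring
  have e1 : ∀ᶠ x : ℝ in atTop, Real.log (4 * K + 1) + C * (6 * (9 + 8 * Real.log x) +
      4 * (9 + 8 * Real.log x) ^ 2) ≤ 1 / 2 * x := by
    filter_upwards [o4.bound (by norm_num : (0 : ℝ) < 1 / 2), eventually_ge_atTop 0] with x hx hx0
    simp only [id, Real.norm_eq_abs, abs_of_nonneg hx0] at hx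
    exact (le_abs_self _).trans hx
  have e2 := (Real.tendsto_log_atTop.comp tendsto_natCast_atTop_atTop).eventually e1
  obtain ⟨n, hn, hn3⟩ := (e2.and (eventually_ge_atTop 3)).exists
  refine ⟨n, hn3, ?_⟩
  simp only [Function.comp] at hn
  set s := ∑ p ∈ prs 0 n, 1 / (p : ℝ) with hs
  have hs0 : 0 ≤ s := sum_nonneg fun p _ => by positivity
  have hn3' : (3 : ℝ) ≤ n := by exact_mod_cast hn3
  have hsS : s ≤ 9 + 8 * Real.log (Real.log n) := by
    have := sum_prs n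
    rwa [max_eq_left hn3'] at this
  set T := 9 + 8 * Real.log (Real.log n) with hT
  have h1 : C * (6 * s + 4 * s ^ 2) ≤ C * (6 * T + 4 * T ^ 2) := by
    refine mul_le_mul_of_nonneg_left ?_ hC
    nlinarith
  have hsq : Real.sqrt n = Real.exp (1 / 2 * Real.log n) := by
    rw [Real.sqrt_eq_rpow, Real.rpow_def_of_pos (by linarith)]
    ring_nf
  have hK1 : 0 < 4 * K + 1 := by linarith
  rw [div_le_iff₀ (by rw [hsq]; exact Real.exp_pos _), hsq, mul_assoc, ← Real.exp_add]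
  have h2 : Real.log (4 * K + 1) ≤ -(C * (6 * s + 4 * s ^ 2)) + 1 / 2 * Real.log n := by linarith
  have h3 : 4 * K + 1 ≤ Real.exp (-(C * (6 * s + 4 * s ^ 2)) + 1 / 2 * Real.log n) := by
    rw [← Real.exp_log hK1]
    exact Real.exp_le_exp.2 h2
  linarith

lemma step32 (n : ℕ) (hn : 1 ≤ n) : 1 / (((n + 1 : ℕ) : ℝ) * Real.sqrt ((n + 1 : ℕ) : ℝ)) ≤
    2 / Real.sqrt n - 2 / Real.sqrt ((n + 1 : ℕ) : ℝ) := by
  have hn' : (0 : ℝ) < n := by exact_mod_cast hn
  set a := Real.sqrt n with ha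
  set b := Real.sqrt ((n + 1 : ℕ) : ℝ) with hb
  have ha0 : 0 < a := Real.sqrt_pos.2 hn'
  have hb0 : 0 < b := Real.sqrt_pos.2 (by positivity)
  have ha2 : a ^ 2 = n := Real.sq_sqrt hn'.le
  have hb2 : b ^ 2 = ((n + 1 : ℕ) : ℝ) := Real.sq_sqrt (by positivity)
  have hab : a ≤ b := Real.sqrt_le_sqrt (by push_cast; linarith)
  have h1 : b ^ 2 = a ^ 2 + 1 := by rw [ha2, hb2]; push_cast; ring
  rw [← hb2, div_sub_div _ _ ha0.ne' hb0.ne', div_le_div_iff₀ (by positivity) (by positivity)]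
  have h2 : (b - a) * (b + a) = 1 := by nlinarith
  have h3 : 0 ≤ b - a := by linarith
  have h4 : 1 ≤ (b - a) * (2 * b) := by nlinarith
  have h5 : a * b ≤ b * b := mul_le_mul_of_nonneg_right hab hb0.le
  have h6 : a * b ≤ (b * b) * ((b - a) * (2 * b)) := by
    calc a * b ≤ b * b := h5
      _ = (b * b) * 1 := by ring
      _ ≤ (b * b) * ((b - a) * (2 * b)) := mul_le_mul_of_nonneg_left h4 (by positivity)
  nlinarith

theorem tail (m M : ℕ) (hm : 1 ≤ m) : ∑ p ∈ prs m M, 1 / ((p : ℝ) * Real.sqrt p) ≤ 2 / Real.sqrt m := by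
  have h1 : ∑ p ∈ prs m M, 1 / ((p : ℝ) * Real.sqrt p) ≤ ∑ p ∈ Ioc m M, 1 / ((p : ℝ) * Real.sqrt p) :=
    sum_le_sum_of_subset_of_nonneg (filter_subset _ _) fun p _ _ => by positivity
  refine h1.trans ?_
  by_cases hM : m ≤ M
  · have h2 : ∑ p ∈ Ioc m M, 1 / ((p : ℝ) * Real.sqrt p) ≤ 2 / Real.sqrt m - 2 / Real.sqrt M := by
      induction M, hM using Nat.le_induction with
      | base => simp
      | succ M hM ih =>
        rw [sum_Ioc_succ_top (by omega)]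
        have h3 := step32 M (by omega)
        have h4 := ih ?_
        · linarith
        · refine sum_le_sum_of_subset_of_nonneg (filter_subset _ _) fun p _ _ => by positivity
    have h3 : 0 ≤ 2 / Real.sqrt M := by positivity
    linarith
  · rw [Ioc_eq_empty (by omega), sum_empty]
    positivity

end Pool.Agent.H29.OM
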