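import Pool.Agent.H29.OM.Mer

/-!
# Project OM: module PL1 (second moment of the difference of the numbers of odd prime factors)
-/

set_option autoImplicit false

namespace Pool.Agent.H29.OM

open Finset Pool.Agent.H19.OM

lemma om_eq (z m : ℕ) : (om z m : ℝ) = ∑ p ∈ pz z, e p m := by
  unfold om pz e
  rw [sum_boole, filter_filter]

/-- the sum of the deviations for the shift `g` -/
noncomputable def T (g : ℕ → ℕ) (D m z n : ℕ) : ℝ :=
  ∑ p ∈ pz z, ∑ j ∈ range m, (e p (g n + j * D) - 1 / (p : ℝ))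

lemma sum_blocks (G : ℕ → ℝ) (D K : ℕ) :
    ∑ n ∈ range (K * D), G n = ∑ r ∈ range D, ∑ i ∈ range K, G (i * D + r) := by
  rw [sum_comm]
  induction K with
  | zero => simp
  | succ K ih => rw [add_mul, one_mul, sum_range_add, ih, sum_range_succ]

lemma g_iter (g : ℕ → ℕ) (D : ℕ) (hg : ∀ n, g (n + D) = g n + D) (i r : ℕ) : g (i * D + r) = g r + i * D := by
  induction i with
  | zero => simp
  | succ i ih =>
    rw [show (i + 1) * D + r = (i * D + r) + D by ring, hg, ih]; ring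

lemma half (g : ℕ → ℕ) (a m z N : ℕ) (hm : 1 ≤ m) (hmN : (m * 2 ^ a) ^ 8 ≤ N) (hz : z ^ 8 ≤ N)
    (hg : ∀ n, g (n + 2 ^ a) = g n + 2 ^ a) :
    ∑ n ∈ Icc 1 N, (T g (2 ^ a) m z n) ^ 2 ≤
      (4 + 32 * m * (1 + Real.log (Real.log (max (z : ℝ) 3)))) * N := by
  set D := 2 ^ a with hDdef
  have hD : 0 < D := by positivity
  have hN : 1 ≤ N := le_trans (Nat.one_le_pow _ _ (Nat.mul_pos hm hD)) hmN
  set K := N / D + 1 with hK
  have hcop : ∀ p ∈ pz z, Nat.Coprime D p := by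
    intro p hp
    simp only [pz, mem_filter, mem_Icc] at hp
    rw [hDdef]
    apply Nat.Coprime.pow_left
    rw [Nat.coprime_primes Nat.prime_two hp.2]
    omega
  have h1 : ∑ n ∈ Icc 1 N, (T g D m z n) ^ 2 ≤ ∑ n ∈ range (K * D), (T g D m z n) ^ 2 := by
    apply sum_le_sum_of_subset_of_nonneg
    · intro n hn
      simp only [mem_Icc, mem_range] at hn ⊢
      have := Nat.lt_div_mul_add (a := N) hD
      rw [hK, add_mul, one_mul]; omega
    · intro n _ _; positivity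
  refine h1.trans ?_
  rw [sum_blocks]
  have h2 : ∀ r ∈ range D, ∑ i ∈ range K, (T g D m z (i * D + r)) ^ 2 ≤
      3 * (m : ℝ) ^ 2 * (z : ℝ) ^ 2 + 2 * m * K * (∑ p ∈ pz z, 1 / (p : ℝ)) + m * z := by
    intro r _
    have := lemA D (g r) m z K hcop
    refine le_trans (le_of_eq ?_) this
    refine sum_congr rfl fun i _ => ?_
    unfold T Y
    rw [g_iter g D hg]
    congr 1
    refine sum_congr rfl fun p _ => sum_congr rfl fun j _ => ?_
    congr 2
    ring
  refine (sum_le_sum h2).trans ?_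
  rw [sum_const, card_range, nsmul_eq_mul]
  have hKD : (D : ℝ) * K ≤ 2 * N := by
    have h3 : D * K ≤ N + D := by
      rw [hK, mul_add, mul_one]
      have := Nat.mul_div_le N D
      omega
    have h4 : D ≤ N := by
      have h5 : D ≤ (m * D) ^ 8 := by
        calc D ≤ m * D := Nat.le_mul_of_pos_left _ hm
          _ ≤ (m * D) ^ 8 := Nat.le_self_pow (by norm_num) _
      omega
    have h5 : D * K ≤ 2 * N := by omega
    exact_mod_cast h5
  have hbig : (D : ℝ) * ((m : ℝ) ^ 2 * (z : ℝ) ^ 2) ≤ N := by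
    have h3 : ((m * D) * z) ^ 8 ≤ N ^ 2 := by
      rw [mul_pow, sq]; exact Nat.mul_le_mul hmN hz
    have h4 : (((m * D) * z) ^ 2) ^ 2 ≤ N ^ 2 := by
      rcases Nat.eq_zero_or_pos z with h | h
      · subst h; simp
      · refine le_trans ?_ h3
        rw [← pow_mul]
        exact Nat.pow_le_pow_right (Nat.mul_pos (Nat.mul_pos hm hD) h) (by norm_num)
    have h5 : ((m * D) * z) ^ 2 ≤ N := by
      by_contra hcon
      push Not at hcon
      have := Nat.pow_lt_pow_left hcon (n := 2) (by norm_num)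
      omega
    have h6 : D * (m ^ 2 * z ^ 2) ≤ N := by
      refine le_trans ?_ h5
      have : (m * D * z) ^ 2 = D * (D * (m ^ 2 * z ^ 2)) := by ring
      rw [this]
      exact Nat.mul_le_mul_left _ (Nat.le_mul_of_pos_left _ hD)
    exact_mod_cast h6
  have hmz : (m : ℝ) * z ≤ (m : ℝ) ^ 2 * (z : ℝ) ^ 2 := by
    have : m * z ≤ m ^ 2 * z ^ 2 := by
      rw [← mul_pow]; exact Nat.le_self_pow (by norm_num) _
    exact_mod_cast this
  have hH := mer z
  have hm0 : (0 : ℝ) ≤ m := by positivity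
  have hD0 : (0 : ℝ) ≤ D := by positivity
  have hN0 : (0 : ℝ) ≤ N := by positivity
  set H := ∑ p ∈ pz z, 1 / (p : ℝ) with hHdef
  have hH0 : 0 ≤ H := sum_nonneg fun p _ => by positivity
  set R := 1 + Real.log (Real.log (max (z : ℝ) 3)) with hR
  have s1 : (D : ℝ) * (2 * m * K * H) ≤ 32 * m * R * N := by
    have : (D : ℝ) * (2 * m * K * H) = (2 * m) * (((D : ℝ) * K) * H) := by ring
    rw [this]
    have t1 : ((D : ℝ) * K) * H ≤ (2 * N) * (8 * R) := mul_le_mul hKD hH hH0 (by positivity)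
    nlinarith [mul_le_mul_of_nonneg_left t1 (by positivity : (0 : ℝ) ≤ 2 * m)]
  have s2 : (D : ℝ) * (m * z) ≤ N := (mul_le_mul_of_nonneg_left hmz hD0).trans hbig
  nlinarith

theorem t_PL1 : S_PL1 := by
  refine ⟨400, by norm_num, ?_⟩
  intro N a m z ha hm hmN hz
  have hp0 : ∀ n, t0 (2 ^ a) (n + 2 ^ a) = t0 (2 ^ a) n + 2 ^ a := by
    intro n; unfold t0; rw [Nat.add_mod_right]; ring
  have hp1 : ∀ n, t1 (2 ^ a) (n + 2 ^ a) = t1 (2 ^ a) n + 2 ^ a := by
    intro n; unfold t1; rw [Nat.add_mod_right]; ring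
  have h0 := half (t0 (2 ^ a)) a m z N hm hmN hz hp0
  have h1 := half (t1 (2 ^ a)) a m z N hm hmN hz hp1
  have key : ∀ n ∈ Icc 1 N, (∑ j ∈ range m, ((om z (t0 (2 ^ a) n + j * 2 ^ a) : ℝ) -
      om z (t1 (2 ^ a) n + j * 2 ^ a))) ^ 2 ≤
      2 * (T (t0 (2 ^ a)) (2 ^ a) m z n) ^ 2 + 2 * (T (t1 (2 ^ a)) (2 ^ a) m z n) ^ 2 := by
    intro n _
    have e1 : ∑ j ∈ range m, ((om z (t0 (2 ^ a) n + j * 2 ^ a) : ℝ) - om z (t1 (2 ^ a) n + j * 2 ^ a)) =
        T (t0 (2 ^ a)) (2 ^ a) m z n - T (t1 (2 ^ a)) (2 ^ a) m z n := by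
      unfold T
      rw [← sum_sub_distrib]
      have : ∀ p ∈ pz z, (∑ j ∈ range m, (e p (t0 (2 ^ a) n + j * 2 ^ a) - 1 / (p : ℝ)) -
          ∑ j ∈ range m, (e p (t1 (2 ^ a) n + j * 2 ^ a) - 1 / (p : ℝ))) =
          ∑ j ∈ range m, (e p (t0 (2 ^ a) n + j * 2 ^ a) - e p (t1 (2 ^ a) n + j * 2 ^ a)) := by
        intro p _
        rw [← sum_sub_distrib]
        exact sum_congr rfl fun j _ => by ring
      rw [sum_congr rfl this, sum_comm]
      refine sum_congr rfl fun j _ => ?_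
      rw [om_eq, om_eq, ← sum_sub_distrib]
    rw [e1]
    nlinarith [sq_nonneg (T (t0 (2 ^ a)) (2 ^ a) m z n + T (t1 (2 ^ a)) (2 ^ a) m z n)]
  refine (sum_le_sum key).trans ?_
  rw [sum_add_distrib, ← mul_sum, ← mul_sum]
  set R := 1 + Real.log (Real.log (max (z : ℝ) 3)) with hR
  have hR1 : 1 ≤ R := by
    have : 0 < Real.log (Real.log (max (z : ℝ) 3)) := by
      apply Real.log_pos
      have : Real.log 3 ≤ Real.log (max (z : ℝ) 3) := Real.log_le_log (by norm_num) (le_max_right _ _)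
      have h3 : 1 < Real.log 3 := by
        rw [Real.lt_log_iff_exp_lt (by norm_num)]
        exact Real.exp_one_lt_d9.trans (by norm_num)
      linarith
    linarith
  have hm1 : (1 : ℝ) ≤ m := by exact_mod_cast hm
  have hN0 : (0 : ℝ) ≤ N := by positivity
  have hmR : 1 ≤ (m : ℝ) * R := by nlinarith
  have c1 : 2 * ((4 + 32 * m * R) * (N : ℝ)) + 2 * ((4 + 32 * m * R) * N) ≤ 400 * (m * R + (m : ℝ) ^ 2) * N := by
    have : 2 * ((4 + 32 * m * R) * (N : ℝ)) + 2 * ((4 + 32 * m * R) * N) = (16 + 128 * (m * R)) * N := by ring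
    rw [this]
    exact mul_le_mul_of_nonneg_right (by nlinarith [sq_nonneg (m : ℝ)]) hN0
  linarith

end Pool.Agent.H29.OM
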