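import Pool.Agent.H29.OM.PL1

/-!
# Project OM: module PL2 (first moment of the higher powers of the odd primes)
-/

set_option autoImplicit false

namespace Pool.Agent.H29.OM

open Finset Pool.Agent.H19.OM

lemma hp_le (x M : ℕ) (hx : 0 < x) (hM : x ≤ M ^ 2) :
    hp x ≤ 2 * ((Icc 3 M).filter (fun d => Odd d ∧ d ^ 2 ∣ x)).card := by
  classical
  set s := x.primeFactors.filter (fun p => p ≠ 2) with hs
  have h1 : hp x ≤ ∑ p ∈ s, 2 * (Icc 1 (x.factorization p / 2)).card := by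
    unfold hp
    refine sum_le_sum fun p _ => ?_
    rw [Nat.card_Icc]; omega
  refine h1.trans ?_
  rw [← mul_sum, ← card_sigma]
  refine Nat.mul_le_mul_left 2 ?_
  apply card_le_card_of_injOn (fun q => q.1 ^ q.2)
  · intro q hq
    simp only [coe_sigma, Set.mem_sigma_iff, mem_coe, hs, mem_filter, Nat.mem_primeFactors, mem_Icc] at hq
    obtain ⟨⟨⟨hp, hpx, _⟩, hp2⟩, hc1, hc2⟩ := hq
    have hdvd : (q.1 ^ q.2) ^ 2 ∣ x := by
      rw [← pow_mul]
      exact (hp.pow_dvd_iff_le_factorization hx.ne').2 (by omega)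
    have hodd : Odd (q.1 ^ q.2) := (hp.odd_of_ne_two hp2).pow
    have hle : q.1 ^ q.2 ≤ M := by
      have h2 := (Nat.le_of_dvd hx hdvd).trans hM
      exact (Nat.pow_le_pow_iff_left (by norm_num)).1 h2
    have h3 : 3 ≤ q.1 ^ q.2 := by
      have h4 : q.1 ≤ q.1 ^ q.2 := Nat.le_self_pow (by omega) _
      have := hp.two_le
      omega
    simp only [coe_filter, mem_Icc, Set.mem_ofPred_eq]
    exact ⟨⟨h3, hle⟩, hodd, hdvd⟩
  · intro q hq q' hq' heq
    simp only [coe_sigma, Set.mem_sigma_iff, mem_coe, hs, mem_filter, Nat.mem_primeFactors, mem_Icc] at hq hq'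
    obtain ⟨p, c⟩ := q
    obtain ⟨p', c'⟩ := q'
    simp only at hq hq' heq
    obtain ⟨⟨⟨hp, -, -⟩, -⟩, hc1, -⟩ := hq
    obtain ⟨⟨⟨hp', -, -⟩, -⟩, hc1', -⟩ := hq'
    have h1 : p ∣ p' ^ c' := by rw [← heq]; exact dvd_pow_self p (by omega)
    have h2 : p = p' := (Nat.prime_dvd_prime_iff_eq hp hp').1 (hp.dvd_of_dvd_pow h1)
    subst h2
    have h3 : c = c' := Nat.pow_right_injective hp.two_le heq
    subst h3
    rfl

lemma blk (g : ℕ → ℕ) (D N q j : ℕ) (hD : 0 < D) (hg : ∀ n, g (n + D) = g n + D) (hq : 0 < q)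
    (hc : Nat.Coprime D q) :
    ∑ n ∈ Icc 1 N, e q (g n + j * D) ≤ (D : ℝ) * ((((N / D + 1 : ℕ) : ℝ)) * (1 / (q : ℝ)) + 1) := by
  set K := N / D + 1 with hK
  have h1 : ∑ n ∈ Icc 1 N, e q (g n + j * D) ≤ ∑ n ∈ range (K * D), e q (g n + j * D) := by
    apply sum_le_sum_of_subset_of_nonneg
    · intro n hn
      simp only [mem_Icc, mem_range] at hn ⊢
      have := Nat.lt_div_mul_add (a := N) hD
      rw [hK, add_mul, one_mul]; omega
    · intro n _ _; exact e_nonneg _ _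
  refine h1.trans ?_
  rw [sum_blocks]
  have h2 : ∀ r ∈ range D, ∑ i ∈ range K, e q (g (i * D + r) + j * D) ≤ (K : ℝ) * (1 / (q : ℝ)) + 1 := by
    intro r _
    have a := (abs_le.1 (n1 hq hc (g r + j * D) K)).2
    have : ∀ i ∈ range K, e q (g (i * D + r) + j * D) = e q (g r + j * D + D * i) := by
      intro i _
      rw [g_iter g D hg]; congr 1; ring
    rw [sum_congr rfl this]
    have : (K : ℝ) / q = K * (1 / q) := by ring
    linarith
  refine (sum_le_sum h2).trans ?_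
  rw [sum_const, card_range, nsmul_eq_mul]

lemma sq_sum (M : ℕ) : ∑ d ∈ Icc 3 M, (1 : ℝ) / ((d ^ 2 : ℕ) : ℝ) ≤ 1 := by
  have h : ∀ M : ℕ, 2 ≤ M → ∑ d ∈ Icc 3 M, (1 : ℝ) / ((d ^ 2 : ℕ) : ℝ) ≤ 1 / 2 - 1 / M := by
    intro M hM
    induction M, hM using Nat.le_induction with
    | base => simp
    | succ M hM ih =>
      rw [sum_Icc_succ_top (by omega)]
      have hM' : (0 : ℝ) < M := by positivity
      have : (1 : ℝ) / (((M + 1) ^ 2 : ℕ) : ℝ) ≤ 1 / M - 1 / ((M : ℝ) + 1) := by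
        push_cast
        rw [div_sub_div _ _ hM'.ne' (by positivity), div_le_div_iff₀ (by positivity) (by positivity)]
        nlinarith
      push_cast at this ih ⊢
      linarith
  by_cases hM : 2 ≤ M
  · have := h M hM
    have : (0 : ℝ) ≤ 1 / M := by positivity
    linarith [h M hM]
  · rw [Icc_eq_empty (by omega), sum_empty]; norm_num

theorem t_PL2 : S_PL2 := by
  refine ⟨12, by norm_num, ?_⟩
  intro N a m ha hm hmN
  set D := 2 ^ a with hDdef
  have hD : 0 < D := by positivity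
  have hg : ∀ n, t1 D (n + D) = t1 D n + D := by
    intro n; unfold t1; rw [Nat.add_mod_right]; ring
  have hmD : m * D ≤ N := le_trans (Nat.le_self_pow (by norm_num) _) hmN
  have hN : 1 ≤ N := le_trans (Nat.mul_pos hm hD) hmD
  set M := 2 * (Nat.sqrt N + 1) with hM
  have hM2 : 4 * N ≤ M ^ 2 := by
    have := Nat.lt_succ_sqrt N
    rw [hM, mul_pow]
    have : N < (Nat.sqrt N + 1) * (Nat.sqrt N + 1) := this
    nlinarith
  have hs1 : 1 ≤ Nat.sqrt N := Nat.le_sqrt.2 (by omega)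
  have hDs : D ≤ Nat.sqrt N := by
    rw [Nat.le_sqrt]
    calc D * D ≤ (m * D) * (m * D) := Nat.mul_le_mul (Nat.le_mul_of_pos_left _ hm) (Nat.le_mul_of_pos_left _ hm)
      _ = (m * D) ^ 2 := by ring
      _ ≤ (m * D) ^ 8 := Nat.pow_le_pow_right (Nat.mul_pos hm hD) (by norm_num)
      _ ≤ N := hmN
  have hDM : D * M ≤ 4 * N := by
    have h1 : M ≤ 4 * Nat.sqrt N := by omega
    have h2 := Nat.sqrt_le N
    calc D * M ≤ Nat.sqrt N * (4 * Nat.sqrt N) := Nat.mul_le_mul hDs h1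
      _ = 4 * (Nat.sqrt N * Nat.sqrt N) := by ring
      _ ≤ 4 * N := Nat.mul_le_mul_left _ h2
  have hKD : (D : ℝ) * ((N / D + 1 : ℕ) : ℝ) ≤ 2 * N := by
    have h3 : D * (N / D + 1) ≤ N + D := by
      rw [mul_add, mul_one]
      have := Nat.mul_div_le N D
      omega
    have h4 : D ≤ N := le_trans (Nat.le_mul_of_pos_left _ hm) hmD
    have h5 : D * (N / D + 1) ≤ 2 * N := by omega
    exact_mod_cast h5
  have step : ∀ n ∈ Icc 1 N, ∀ j ∈ range m, (hp (t1 D n + j * D) : ℝ) ≤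
      2 * ∑ d ∈ (Icc 3 M).filter (fun d => Odd d), e (d ^ 2) (t1 D n + j * D) := by
    intro n hn j hj
    rw [mem_Icc] at hn
    rw [mem_range] at hj
    have ht : t1 D n ≤ n + D := by
      unfold t1
      have := Nat.mod_lt ((D - n % D) % D + 1) hD
      omega
    have ht' : n ≤ t1 D n := by unfold t1; omega
    have hjD : j * D ≤ m * D := Nat.mul_le_mul_right _ hj.le
    have hDN : D ≤ N := le_trans (Nat.le_mul_of_pos_left _ hm) hmD
    have h1 := hp_le (t1 D n + j * D) M (by omega) (by omega)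
    have h2 : ((2 * ((Icc 3 M).filter (fun d => Odd d ∧ d ^ 2 ∣ t1 D n + j * D)).card : ℕ) : ℝ) =
        2 * ∑ d ∈ (Icc 3 M).filter (fun d => Odd d), e (d ^ 2) (t1 D n + j * D) := by
      push_cast
      congr 1
      unfold e
      rw [sum_boole, filter_filter]
    rw [← h2]
    exact_mod_cast h1
  refine (sum_le_sum fun n hn => sum_le_sum fun j hj => step n hn j hj).trans ?_
  rw [sum_comm]
  have hj : ∀ j ∈ range m, ∑ n ∈ Icc 1 N, (2 * ∑ d ∈ (Icc 3 M).filter (fun d => Odd d), e (d ^ 2) (t1 D n + j * D))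
      ≤ 12 * (N : ℝ) := by
    intro j _
    rw [← mul_sum, sum_comm]
    have hd : ∀ d ∈ (Icc 3 M).filter (fun d => Odd d), ∑ n ∈ Icc 1 N, e (d ^ 2) (t1 D n + j * D) ≤
        2 * N * (1 / ((d ^ 2 : ℕ) : ℝ)) + D := by
      intro d hd
      simp only [mem_filter, mem_Icc] at hd
      have hc : Nat.Coprime D (d ^ 2) := by
        rw [hDdef]
        apply Nat.Coprime.pow
        exact (Nat.coprime_two_left).2 hd.2
      have h1 := blk (t1 D) D N (d ^ 2) j hD hg (pow_pos (by omega) 2) hc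
      refine h1.trans ?_
      have h2 : (0 : ℝ) ≤ 1 / ((d ^ 2 : ℕ) : ℝ) := by positivity
      have h3 := mul_le_mul_of_nonneg_right hKD h2
      rw [mul_add, mul_one, ← mul_assoc]
      linarith
    have h4 := sum_le_sum hd
    rw [sum_add_distrib, ← mul_sum, sum_const, nsmul_eq_mul] at h4
    have h5 : ∑ d ∈ (Icc 3 M).filter (fun d => Odd d), (1 : ℝ) / ((d ^ 2 : ℕ) : ℝ) ≤ 1 :=
      (sum_le_sum_of_subset_of_nonneg (filter_subset _ _) fun d _ _ => by positivity).trans (sq_sum M)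
    have h6 : (((Icc 3 M).filter (fun d => Odd d)).card : ℝ) * D ≤ 4 * N := by
      have h7 : ((Icc 3 M).filter (fun d => Odd d)).card ≤ M := by
        refine (card_le_card (filter_subset _ _)).trans ?_
        rw [Nat.card_Icc]; omega
      have h8 : ((Icc 3 M).filter (fun d => Odd d)).card * D ≤ 4 * N := by
        calc _ ≤ M * D := Nat.mul_le_mul_right _ h7
          _ = D * M := by ring
          _ ≤ 4 * N := hDM
      exact_mod_cast h8
    have h9 : 2 * (N : ℝ) * ∑ d ∈ (Icc 3 M).filter (fun d => Odd d), (1 : ℝ) / ((d ^ 2 : ℕ) : ℝ) ≤ 2 * N := by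
      have : (0 : ℝ) ≤ 2 * N := by positivity
      nlinarith
    linarith
  refine (sum_le_sum hj).trans ?_
  rw [sum_const, card_range, nsmul_eq_mul]
  linarith

end Pool.Agent.H29.OM
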